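import Mathlib

/-! Haar measure on the unitary group of a finite-dimensional C*-algebra, differentiation under
the integral, and integration by parts. -/

set_option autoImplicit false

namespace Pool.Agent.H76.GR

open MeasureTheory

variable {𝒜 : Type*} [CStarAlgebra 𝒜] [FiniteDimensional ℂ 𝒜]

set_option linter.unusedSectionVars false

theorem isCompact_unitary : IsCompact ((unitary 𝒜 : Set 𝒜)) := by
  have : ProperSpace 𝒜 := FiniteDimensional.proper ℂ 𝒜
  refine Metric.isCompact_of_isClosed_isBounded isClosed_unitary ?_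
  rcases subsingleton_or_nontrivial 𝒜 with h | h
  · exact (Set.toFinite _).isBounded
  · refine (Metric.isBounded_closedBall (x := (0 : 𝒜)) (r := 1)).subset ?_
    intro x hx
    rw [mem_closedBall_zero_iff]
    exact (CStarRing.norm_of_mem_unitary hx).le

instance : CompactSpace (unitary 𝒜) := isCompact_iff_compactSpace.mp isCompact_unitary

instance instMeasU : MeasurableSpace (unitary 𝒜) := borel _
instance instBorelU : BorelSpace (unitary 𝒜) := ⟨rfl⟩

/-- Normalised Haar measure on the unitary group. -/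
noncomputable def mu (𝒜 : Type*) [CStarAlgebra 𝒜] [FiniteDimensional ℂ 𝒜] : Measure (unitary 𝒜) :=
  Measure.haarMeasure ⊤

instance : (mu 𝒜).IsHaarMeasure := by unfold mu; infer_instance

theorem mu_univ : mu 𝒜 Set.univ = 1 := by
  have := Measure.haarMeasure_self (K₀ := (⊤ : TopologicalSpace.PositiveCompacts (unitary 𝒜)))
  simpa [mu] using this

instance : IsProbabilityMeasure (mu 𝒜) := ⟨mu_univ⟩

theorem cont_integrable {X : Type*} [TopologicalSpace X] [CompactSpace X] [MeasurableSpace X]
    [BorelSpace X] (μ : Measure X) [IsFiniteMeasure μ] {f : X → ℝ} (hf : Continuous f) :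
    Integrable f μ :=
  hf.integrable_of_hasCompactSupport (HasCompactSupport.of_compactSpace f)

/-- Differentiation under the integral sign over a compact space. -/
theorem hasDerivAt_int {X : Type*} [TopologicalSpace X] [CompactSpace X] [MeasurableSpace X]
    [BorelSpace X] (μ : Measure X) [IsFiniteMeasure μ] {F F' : ℝ → X → ℝ}
    (hF : ∀ r, Continuous (F r)) (hF' : Continuous (Function.uncurry F'))
    (h : ∀ r x, HasDerivAt (fun r => F r x) (F' r x) r) (r : ℝ) :
    HasDerivAt (fun r => ∫ x, F r x ∂μ) (∫ x, F' r x ∂μ) r := by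
  obtain ⟨C, hC⟩ : ∃ C, ∀ y ∈ (Set.Icc (r - 1) (r + 1)) ×ˢ (Set.univ : Set X),
      ‖Function.uncurry F' y‖ ≤ C :=
    (isCompact_Icc.prod isCompact_univ).exists_bound_of_continuousOn hF'.continuousOn
  refine (hasDerivAt_integral_of_dominated_loc_of_deriv_le (s := Metric.ball r 1)
    (bound := fun _ => C) (Metric.ball_mem_nhds _ one_pos) ?_ ?_ ?_ ?_ ?_ ?_).2
  · exact Filter.Eventually.of_forall fun r => (hF r).aestronglyMeasurable
  · exact cont_integrable μ (hF r)
  · exact (hF'.comp (by fun_prop : Continuous fun x : X => (r, x))).aestronglyMeasurable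
  · refine Filter.Eventually.of_forall fun x y hy => hC (y, x) ⟨?_, trivial⟩
    rw [Metric.mem_ball, Real.dist_eq, abs_lt] at hy
    constructor <;> linarith [hy.1, hy.2]
  · exact integrable_const _
  · exact Filter.Eventually.of_forall fun x y _ => h y x

/-- The one-parameter group of unitaries generated by a skew-adjoint element. -/
noncomputable def expU (X : skewAdjoint.submodule ℝ 𝒜) (r : ℝ) : unitary 𝒜 :=
  ⟨NormedSpace.exp (r • (X : 𝒜)), by
    let +nondep : NormedAlgebra ℚ 𝒜 := .restrictScalars ℚ ℝ 𝒜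
    exact NormedSpace.exp_mem_unitary_of_mem_skewAdjoint
      ((skewAdjoint.submodule ℝ 𝒜).smul_mem r X.2)⟩

@[simp] theorem coe_expU (X : skewAdjoint.submodule ℝ 𝒜) (r : ℝ) :
    (expU X r : 𝒜) = NormedSpace.exp (r • (X : 𝒜)) := rfl

@[simp] theorem expU_zero (X : skewAdjoint.submodule ℝ 𝒜) : expU X 0 = 1 := by
  ext; simp

theorem hasDerivAt_expU (X : skewAdjoint.submodule ℝ 𝒜) (r : ℝ) :
    HasDerivAt (fun r => (expU X r : 𝒜)) ((X : 𝒜) * (expU X r : 𝒜)) r := by
  simpa using hasDerivAt_exp_smul_const' (𝕂 := ℝ) (X : 𝒜) r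

theorem contDiff_expU (X : skewAdjoint.submodule ℝ 𝒜) :
    ContDiff ℝ ⊤ (fun r => (expU X r : 𝒜)) := by
  have h : ContDiff ℝ ⊤ (NormedSpace.exp : 𝒜 → 𝒜) := by
    have := (NormedSpace.exp_analytic (𝕂 := ℝ) (𝔸 := 𝒜))
    exact AnalyticOnNhd.contDiff (fun x _ => this x)
  exact h.comp (by fun_prop)

/-- Integration by parts: the integral of the derivative along a right-invariant field is zero. -/
theorem int_deriv (X : skewAdjoint.submodule ℝ 𝒜) (f : 𝒜 → ℝ) (hf : ContDiff ℝ 1 f) :
    ∫ t : unitary 𝒜, fderiv ℝ f t ((X : 𝒜) * t) ∂(mu 𝒜) = 0 := by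
  have hfd : Continuous (fderiv ℝ f) := hf.continuous_fderiv one_ne_zero
  have hexp : Continuous (fun r => (expU X r : 𝒜)) := (contDiff_expU X).continuous
  have h := hasDerivAt_int (mu 𝒜)
    (F := fun r t => f ((expU X r : 𝒜) * (t : 𝒜)))
    (F' := fun r t => fderiv ℝ f ((expU X r : 𝒜) * (t : 𝒜)) ((X : 𝒜) * ((expU X r : 𝒜) * t)))
    (fun r => by have := hf.continuous; fun_prop) (by
      have hg : Continuous (fun p : ℝ × unitary 𝒜 => (expU X p.1 : 𝒜) * (p.2 : 𝒜)) :=
        (hexp.comp continuous_fst).mul (continuous_subtype_val.comp continuous_snd)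
      exact (hfd.comp hg).clm_apply (continuous_const.mul hg)) (by
      intro r t
      have h1 : HasDerivAt (fun r => (expU X r : 𝒜) * (t : 𝒜))
          ((X : 𝒜) * ((expU X r : 𝒜) * t)) r := by
        have := (hasDerivAt_expU X r).mul_const (t : 𝒜)
        rwa [mul_assoc] at this
      exact ((hf.differentiable one_ne_zero _).hasFDerivAt.comp_hasDerivAt r h1)) 0
  have h2 : (fun r => ∫ t : unitary 𝒜, f ((expU X r : 𝒜) * (t : 𝒜)) ∂(mu 𝒜))
      = fun _ => ∫ t : unitary 𝒜, f t ∂(mu 𝒜) := by
    funext r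
    exact integral_mul_left_eq_self (μ := mu 𝒜) (fun t : unitary 𝒜 => f t) (expU X r)
  rw [h2] at h
  have h3 := h.unique (hasDerivAt_const _ _)
  simpa using h3

end Pool.Agent.H76.GR
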