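import Mathlib
import Pool.Agent.H76.GR.Haar

/-! Homotopy invariance of the degree integral for maps into the unitary group. -/

set_option autoImplicit false
set_option linter.unusedSectionVars false

namespace Pool.Agent.H76.GR

open MeasureTheory VectorField Module

variable {𝒜 : Type*} [CStarAlgebra 𝒜]

/-- Skew-adjoint elements, the Lie algebra of the unitary group. -/
noncomputable abbrev Sk (𝒜 : Type*) [CStarAlgebra 𝒜] : Submodule ℝ 𝒜 := skewAdjoint.submodule ℝ 𝒜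

theorem mem_Sk {x : 𝒜} : x ∈ Sk 𝒜 ↔ star x = -x := Iff.rfl

theorem bracket_mem (X Y : Sk 𝒜) : (X : 𝒜) * Y - Y * X ∈ Sk 𝒜 := by
  have hX := mem_Sk.mp X.2
  have hY := mem_Sk.mp Y.2
  rw [mem_Sk, star_sub, star_mul, star_mul, hX, hY]
  noncomm_ring

/-- The bracket of skew-adjoint elements. -/
noncomputable def brk (X Y : Sk 𝒜) : Sk 𝒜 := ⟨(X : 𝒜) * Y - Y * X, bracket_mem X Y⟩

@[simp] theorem coe_brk (X Y : Sk 𝒜) : (brk X Y : 𝒜) = (X : 𝒜) * Y - Y * X := rfl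

/-- The skew-adjoint part. -/
noncomputable def skp (𝒜 : Type*) [CStarAlgebra 𝒜] : 𝒜 →ₗ[ℝ] Sk 𝒜 where
  toFun x := ⟨(1 / 2 : ℝ) • (x - star x), by
    rw [mem_Sk, star_smul, star_sub, star_star, star_trivial, ← smul_neg, neg_sub]⟩
  map_add' x y := by
    ext
    simp only [star_add, Submodule.coe_add, ← smul_add]
    congr 1
    abel
  map_smul' r x := by
    ext
    simp only [star_smul, star_trivial, RingHom.id_apply, Submodule.coe_smul, ← smul_sub]
    rw [smul_comm]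

theorem skp_coe (x : Sk 𝒜) : skp 𝒜 (x : 𝒜) = x := by
  ext
  have hx := mem_Sk.mp x.2
  simp only [skp, LinearMap.coe_mk, AddHom.coe_mk, hx, sub_neg_eq_add, ← two_smul ℝ (x : 𝒜),
    smul_smul]
  norm_num

variable [FiniteDimensional ℂ 𝒜]

/-- Coordinates of the skew-adjoint part. -/
noncomputable def P {k : ℕ} (b : Basis (Fin k) ℝ (Sk 𝒜)) : 𝒜 →L[ℝ] (Fin k → ℝ) :=
  LinearMap.toContinuousLinearMap ((b.equivFun : Sk 𝒜 →ₗ[ℝ] (Fin k → ℝ)).comp (skp 𝒜))

theorem P_apply_mem {k : ℕ} (b : Basis (Fin k) ℝ (Sk 𝒜)) (x : Sk 𝒜) :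
    P b (x : 𝒜) = b.repr x := by
  ext i
  simp [P, skp_coe]

/-- The determinant form of the skew-adjoint coordinates. -/
noncomputable def Dl {k : ℕ} (b : Basis (Fin k) ℝ (Sk 𝒜)) : 𝒜 [⋀^Fin k]→L[ℝ] ℝ :=
  { (Matrix.detRowAlternating (R := ℝ) (n := Fin k)).compLinearMap (P b).toLinearMap with
    cont := by
      change Continuous fun v : Fin k → 𝒜 => Matrix.det (fun i => P b (v i))
      refine Continuous.matrix_det ?_
      refine continuous_pi fun i => ?_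
      exact (P b).continuous.comp (continuous_apply i) }

theorem Dl_apply {k : ℕ} (b : Basis (Fin k) ℝ (Sk 𝒜)) (v : Fin k → 𝒜) :
    Dl b v = Matrix.det (Matrix.of fun i => P b (v i)) := rfl

/-- Right multiplication as a continuous linear map. -/
noncomputable def RM (𝒜 : Type*) [CStarAlgebra 𝒜] : 𝒜 →L[ℝ] 𝒜 →L[ℝ] 𝒜 :=
  (ContinuousLinearMap.mul ℝ 𝒜).flip

@[simp] theorem RM_apply (x y : 𝒜) : RM 𝒜 x y = y * x := rfl

/-- The form `φ(x) · vol(v x⋆)`. -/
noncomputable def Om {k : ℕ} (b : Basis (Fin k) ℝ (Sk 𝒜)) (φ : 𝒜 → ℝ) (x : 𝒜) :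
    𝒜 [⋀^Fin k]→L[ℝ] ℝ :=
  φ x • (Dl b).compContinuousLinearMap (RM 𝒜 (star x))

theorem Om_apply {k : ℕ} (b : Basis (Fin k) ℝ (Sk 𝒜)) (φ : 𝒜 → ℝ) (x : 𝒜) (v : Fin k → 𝒜) :
    Om b φ x v = φ x * Matrix.det (Matrix.of fun i => P b (v i * star x)) := rfl

theorem Om_diff {k : ℕ} (b : Basis (Fin k) ℝ (Sk 𝒜)) (φ : 𝒜 → ℝ) (hφ : Differentiable ℝ φ) :
    Differentiable ℝ (Om b φ) := by
  intro x
  have h1 : DifferentiableAt ℝ (fun x : 𝒜 => RM 𝒜 (star x)) x :=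
    ((RM 𝒜).comp ((starL' ℝ : 𝒜 ≃L[ℝ] 𝒜) : 𝒜 →L[ℝ] 𝒜)).differentiableAt
  have h2 : DifferentiableAt ℝ (fun _ : 𝒜 => Dl b) x := differentiableAt_const _
  exact (hφ x).smul (h2.continuousAlternatingMapCompContinuousLinearMap h1)

/-- Left multiplication by `b j` in the second coordinate. -/
noncomputable def LF {k : ℕ} (b : Basis (Fin k) ℝ (Sk 𝒜)) (j : Fin k) : ℝ × 𝒜 →L[ℝ] ℝ × 𝒜 :=
  (ContinuousLinearMap.inr ℝ ℝ 𝒜).comp
    ((ContinuousLinearMap.mul ℝ 𝒜 (b j : 𝒜)).comp (ContinuousLinearMap.snd ℝ ℝ 𝒜))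

@[simp] theorem LF_apply {k : ℕ} (b : Basis (Fin k) ℝ (Sk 𝒜)) (j : Fin k) (x : ℝ × 𝒜) :
    LF b j x = (0, (b j : 𝒜) * x.2) := rfl

/-- The vector fields `∂_s` and `t ↦ b_j t`. -/
noncomputable def VF {m : ℕ} (b : Basis (Fin (m + 1)) ℝ (Sk 𝒜)) : Fin (m + 2) → ℝ × 𝒜 → ℝ × 𝒜 :=
  Fin.cons (fun _ => (1, 0)) (fun j x => LF b j x)

@[simp] theorem VF_zero {m : ℕ} (b : Basis (Fin (m + 1)) ℝ (Sk 𝒜)) (x : ℝ × 𝒜) :
    VF b 0 x = (1, 0) := rfl

@[simp] theorem VF_succ {m : ℕ} (b : Basis (Fin (m + 1)) ℝ (Sk 𝒜)) (j : Fin (m + 1)) (x : ℝ × 𝒜) :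
    VF b j.succ x = (0, (b j : 𝒜) * x.2) := rfl

theorem VF_contDiff {m : ℕ} (b : Basis (Fin (m + 1)) ℝ (Sk 𝒜)) (i : Fin (m + 2)) :
    ContDiff ℝ ⊤ (VF b i) := by
  refine Fin.cases ?_ (fun j => ?_) i
  · exact contDiff_const
  · exact (LF b j).contDiff

theorem VF_fderiv_zero {m : ℕ} (b : Basis (Fin (m + 1)) ℝ (Sk 𝒜)) (x : ℝ × 𝒜) :
    fderiv ℝ (VF b 0) x = 0 := by
  have : VF b 0 = fun _ => ((1, 0) : ℝ × 𝒜) := rfl
  rw [this]
  exact fderiv_const_apply _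

theorem VF_fderiv_succ {m : ℕ} (b : Basis (Fin (m + 1)) ℝ (Sk 𝒜)) (j : Fin (m + 1)) (x : ℝ × 𝒜) :
    fderiv ℝ (VF b j.succ) x = LF b j :=
  (LF b j).fderiv

theorem bracket_zero {m : ℕ} (b : Basis (Fin (m + 1)) ℝ (Sk 𝒜)) (j : Fin (m + 1)) (x : ℝ × 𝒜) :
    lieBracket ℝ (VF b 0) (VF b j.succ) x = 0 := by
  rw [lieBracket, VF_fderiv_zero, VF_fderiv_succ]
  simp

theorem bracket_succ {m : ℕ} (b : Basis (Fin (m + 1)) ℝ (Sk 𝒜)) (i j : Fin (m + 1)) (x : ℝ × 𝒜) :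
    lieBracket ℝ (VF b i.succ) (VF b j.succ) x = (0, (brk (b j) (b i) : 𝒜) * x.2) := by
  rw [lieBracket, VF_fderiv_succ, VF_fderiv_succ]
  simp only [VF_succ, LF_apply, coe_brk, Prod.mk_sub_mk, sub_zero]
  congr 1
  noncomm_ring

/-- Every vector field other than the two removed ones occurs in the remaining list. -/
theorem mem_range_remove {m : ℕ} {α : Type*} (V : Fin (m + 2) → α) (i j : Fin (m + 1)) (hij : i ≤ j)
    (k : Fin (m + 2)) (h1 : k ≠ i.castSucc) (h2 : k ≠ j.succ) :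
    ∃ l, (j.removeNth (i.castSucc.removeNth V)) l = V k := by
  obtain ⟨k', hk'⟩ := Fin.exists_succAbove_eq h1
  have h3 : k' ≠ j := by
    rintro rfl
    apply h2
    rw [← hk', Fin.succAbove_of_le_castSucc]
    exact Fin.castSucc_le_castSucc_iff.mpr hij
  obtain ⟨l, hl⟩ := Fin.exists_succAbove_eq h3
  exact ⟨l, by rw [Fin.removeNth, Fin.removeNth, hl, hk']⟩

/-- The bracket terms in the formula for the exterior derivative vanish for an orthogonal basis. -/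
theorem bracket_term {m : ℕ} (b : Basis (Fin (m + 1)) ℝ (Sk 𝒜))
    (hb : ∀ i j, i ≠ j → b.repr (brk (b j) (b i)) i = 0 ∧ b.repr (brk (b j) (b i)) j = 0)
    (ω : (ℝ × 𝒜) [⋀^Fin (m + 1)]→L[ℝ] ℝ) (x : ℝ × 𝒜) (i j : Fin (m + 1)) (hij : i ≤ j) :
    ω (Matrix.vecCons (lieBracket ℝ (VF b i.castSucc) (VF b j.succ) x)
              (j.removeNth <| i.castSucc.removeNth (VF b · x))) = 0 := by
  have key : lieBracket ℝ (VF b i.castSucc) (VF b j.succ) x ∈
      Submodule.span ℝ (Set.range (j.removeNth <| i.castSucc.removeNth (VF b · x))) := by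
    rcases Fin.eq_zero_or_eq_succ i with rfl | ⟨i', rfl⟩
    · rw [Fin.castSucc_zero, bracket_zero]
      exact Submodule.zero_mem _
    · have hne : i'.castSucc ≠ j := by
        rintro rfl
        exact absurd hij (by simp [Fin.le_def])
      have e1 : (i'.succ).castSucc = (i'.castSucc).succ := rfl
      rw [e1, bracket_succ]
      have e2 : ((0, (brk (b j) (b i'.castSucc) : 𝒜) * x.2) : ℝ × 𝒜)
          = ∑ c, b.repr (brk (b j) (b i'.castSucc)) c • VF b c.succ x := by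
        have h1 := b.sum_repr (brk (b j) (b i'.castSucc))
        conv_lhs => rw [← h1]
        rw [Submodule.coe_sum, Finset.sum_mul]
        simp only [Submodule.coe_smul, smul_mul_assoc, VF_succ, Prod.smul_mk, smul_zero]
        ext
        · simp [Prod.fst_sum]
        · simp [Prod.snd_sum]
      rw [e2]
      refine Submodule.sum_mem _ fun c _ => ?_
      by_cases hc1 : c = i'.castSucc
      · subst hc1
        rw [(hb _ _ hne).1, zero_smul]
        exact Submodule.zero_mem _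
      by_cases hc2 : c = j
      · subst hc2
        rw [(hb _ _ hne).2, zero_smul]
        exact Submodule.zero_mem _
      refine Submodule.smul_mem _ _ (Submodule.subset_span ?_)
      obtain ⟨l, hl⟩ := mem_range_remove (VF b · x) i'.succ j hij c.succ
        (by rw [e1]; exact fun h => hc1 (Fin.succ_injective _ h))
        (fun h => hc2 (Fin.succ_injective _ h))
      exact ⟨l, hl⟩
  have h : ¬ LinearIndependent ℝ (Matrix.vecCons (lieBracket ℝ (VF b i.castSucc) (VF b j.succ) x)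
              (j.removeNth <| i.castSucc.removeNth (VF b · x))) := by
    intro h
    exact (linearIndependent_finCons.mp h).2 key
  exact ω.toAlternatingMap.map_linearDependent _ h

theorem contDiff_det {E : Type*} [NormedAddCommGroup E] [NormedSpace ℝ E] {k : ℕ}
    {n : WithTop ℕ∞} (A : E → Matrix (Fin k) (Fin k) ℝ)
    (h : ∀ i j, ContDiff ℝ n (fun x => A x i j)) : ContDiff ℝ n (fun x => (A x).det) := by
  simp only [Matrix.det_apply]
  refine ContDiff.sum fun σ _ => ?_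
  refine ContDiff.const_smul _ ?_
  exact contDiff_prod fun i _ => h _ _

/-- The pulled back form, evaluated on vector fields. -/
noncomputable def FF {m : ℕ} (b : Basis (Fin (m + 1)) ℝ (Sk 𝒜)) (φ : 𝒜 → ℝ) (W : ℝ × 𝒜 → 𝒜)
    (i : Fin (m + 2)) (x : ℝ × 𝒜) : ℝ :=
  ((Om b φ (W x)).compContinuousLinearMap (fderiv ℝ W x)) (i.removeNth (VF b · x))

theorem FF_eq {m : ℕ} (b : Basis (Fin (m + 1)) ℝ (Sk 𝒜)) (φ : 𝒜 → ℝ) (W : ℝ × 𝒜 → 𝒜)
    (i : Fin (m + 2)) (x : ℝ × 𝒜) :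
    FF b φ W i x = φ (W x) * Matrix.det (Matrix.of fun a =>
      P b (fderiv ℝ W x (VF b (i.succAbove a) x) * star (W x))) := rfl

theorem FF_contDiff {m : ℕ} (b : Basis (Fin (m + 1)) ℝ (Sk 𝒜)) (φ : 𝒜 → ℝ) (W : ℝ × 𝒜 → 𝒜)
    (hφ : ContDiff ℝ 1 φ) (hW : ContDiff ℝ 2 W) (i : Fin (m + 2)) :
    ContDiff ℝ 1 (FF b φ W i) := by
  have hW1 : ContDiff ℝ 1 W := hW.of_le (by norm_num)
  have hW' : ContDiff ℝ 1 (fderiv ℝ W) := hW.fderiv_right (by norm_num)
  have hs : ContDiff ℝ 1 (fun x => star (W x)) :=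
    ((starL' ℝ : 𝒜 ≃L[ℝ] 𝒜).contDiff).comp hW1
  refine (hφ.comp hW1).mul (contDiff_det _ fun a c => ?_)
  have h1 : ContDiff ℝ 1 (fun x => fderiv ℝ W x (VF b (i.succAbove a) x) * star (W x)) :=
    (hW'.clm_apply ((VF_contDiff b _).of_le le_top)).mul hs
  exact (contDiff_pi.mp ((P b).contDiff.comp h1)) c

/-- The pulled back `(d+1)`-form vanishes on tangent vectors. -/
theorem ext_zero {m : ℕ} (b : Basis (Fin (m + 1)) ℝ (Sk 𝒜)) (φ : 𝒜 → ℝ) (W : ℝ × 𝒜 → 𝒜)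
    (hφ : ContDiff ℝ 1 φ) (hW : ContDiff ℝ 2 W) (hWU : ∀ s, ∀ t ∈ unitary 𝒜, W (s, t) ∈ unitary 𝒜)
    (s : ℝ) (t : 𝒜) (ht : t ∈ unitary 𝒜) :
    extDeriv (fun x => (Om b φ (W x)).compContinuousLinearMap (fderiv ℝ W x)) (s, t)
      (VF b · (s, t)) = 0 := by
  have hdW : Differentiable ℝ W := hW.differentiable two_ne_zero
  rw [extDeriv_pullback (r := 2) ((Om_diff b φ (hφ.differentiable one_ne_zero)) _)
    hW.contDiffAt (by simp)]
  change (extDeriv (Om b φ) (W (s, t))) (fun i => fderiv ℝ W (s, t) (VF b i (s, t))) = 0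
  set w := W (s, t) with hw
  have hwU : w ∈ unitary 𝒜 := hWU s t ht
  -- all vectors are tangent to the unitary group
  have tan : ∀ i : Fin (m + 2), fderiv ℝ W (s, t) (VF b i (s, t)) * star w ∈ Sk 𝒜 := by
    intro i
    -- a curve of unitaries through `w` with the given velocity
    have hc : ∃ c : ℝ → ℝ × 𝒜, c 0 = (s, t) ∧ HasDerivAt c (VF b i (s, t)) 0 ∧
        ∀ r, (c r).2 ∈ unitary 𝒜 := by
      refine Fin.cases ?_ (fun j => ?_) i
      · refine ⟨fun r => (s + r, t), by simp, ?_, fun _ => ht⟩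
        simpa using ((hasDerivAt_id (0 : ℝ)).const_add s).prodMk (hasDerivAt_const (0 : ℝ) t)
      · refine ⟨fun r => (s, (expU (b j) r : 𝒜) * t), by simp, ?_, fun r => ?_⟩
        · have h1 := (hasDerivAt_expU (b j) 0).mul_const t
          have h2 := (hasDerivAt_const (0 : ℝ) s).prodMk h1
          simpa using h2
        · exact mul_mem (expU (b j) r).2 ht
    obtain ⟨c, hc0, hc1, hc2⟩ := hc
    have hg : HasDerivAt (fun r => W (c r)) (fderiv ℝ W (s, t) (VF b i (s, t))) 0 := by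
      have := (hdW (c 0)).hasFDerivAt.comp_hasDerivAt (0 : ℝ) hc1
      rwa [hc0] at this
    have hgU : ∀ r, W (c r) * star (W (c r)) = 1 := fun r =>
      Unitary.mul_star_self_of_mem (hWU (c r).1 (c r).2 (hc2 r))
    have hgs : HasDerivAt (fun r => star (W (c r))) (star (fderiv ℝ W (s, t) (VF b i (s, t)))) 0 :=
      hg.star
    have h3 := (hg.mul hgs).unique (by
      have : ((fun r => W (c r)) * fun r => star (W (c r))) = fun _ : ℝ => (1 : 𝒜) := by
        funext r; exact hgU r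
      rw [this]
      exact hasDerivAt_const _ _)
    rw [hc0, ← hw] at h3
    rw [mem_Sk, star_mul, star_star]
    exact (neg_eq_of_add_eq_zero_right h3).symm
  -- hence linearly dependent
  have dep : ¬ LinearIndependent ℝ (fun i => fderiv ℝ W (s, t) (VF b i (s, t))) := by
    intro hli
    have hli2 : LinearIndependent ℝ (fun i => fderiv ℝ W (s, t) (VF b i (s, t)) * star w) := by
      have hinj : Function.Injective (RM 𝒜 (star w) : 𝒜 →ₗ[ℝ] 𝒜) := by
        intro x y hxy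
        have hxy' : x * star w = y * star w := hxy
        calc x = x * star w * w := by rw [mul_assoc, Unitary.star_mul_self_of_mem hwU, mul_one]
          _ = y * star w * w := by rw [hxy']
          _ = y := by rw [mul_assoc, Unitary.star_mul_self_of_mem hwU, mul_one]
      exact hli.map' _ (LinearMap.ker_eq_bot.mpr hinj)
    have hli3 : LinearIndependent ℝ (fun i : Fin (m + 2) =>
        (⟨fderiv ℝ W (s, t) (VF b i (s, t)) * star w, tan i⟩ : Sk 𝒜)) :=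
      LinearIndependent.of_comp (Sk 𝒜).subtype hli2
    have h4 := hli3.fintype_card_le_finrank
    rw [Module.finrank_eq_card_basis b] at h4
    simp at h4
  exact (extDeriv (Om b φ) w).toAlternatingMap.map_linearDependent _ dep

/-- Pointwise form of Stokes. -/
theorem stokes_pt {m : ℕ} (b : Basis (Fin (m + 1)) ℝ (Sk 𝒜))
    (hb : ∀ i j, i ≠ j → b.repr (brk (b j) (b i)) i = 0 ∧ b.repr (brk (b j) (b i)) j = 0)
    (φ : 𝒜 → ℝ) (W : ℝ × 𝒜 → 𝒜)
    (hφ : ContDiff ℝ 1 φ) (hW : ContDiff ℝ 2 W) (hWU : ∀ s, ∀ t ∈ unitary 𝒜, W (s, t) ∈ unitary 𝒜)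
    (s : ℝ) (t : 𝒜) (ht : t ∈ unitary 𝒜) :
    ∑ i : Fin (m + 2), (-1 : ℝ) ^ (i : ℕ) * fderiv ℝ (FF b φ W i) (s, t) (VF b i (s, t)) = 0 := by
  have hW' : ContDiff ℝ 1 (fderiv ℝ W) := hW.fderiv_right (by norm_num)
  have hd : DifferentiableAt ℝ
      (fun x => (Om b φ (W x)).compContinuousLinearMap (fderiv ℝ W x)) (s, t) := by
    have h1 : DifferentiableAt ℝ (fun x => Om b φ (W x)) (s, t) :=
      ((Om_diff b φ (hφ.differentiable one_ne_zero)) _).comp _ (hW.differentiable two_ne_zero _)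
    exact h1.continuousAlternatingMapCompContinuousLinearMap (hW'.differentiable one_ne_zero _)
  have h := extDeriv_apply_vectorField (V := VF b) hd
    (fun i => (VF_contDiff b i).differentiable (by simp) _)
  rw [ext_zero b φ W hφ hW hWU s t ht] at h
  have h2 : ∑ i : Fin (m + 1), ∑ j ≥ i,
          (-1 : ℤ) ^ (i + j : ℕ) •
            ((Om b φ (W (s, t))).compContinuousLinearMap (fderiv ℝ W (s, t)))
              (Matrix.vecCons (lieBracket ℝ (VF b i.castSucc) (VF b j.succ) (s, t))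
              (j.removeNth <| i.castSucc.removeNth (VF b · (s, t)))) = 0 := by
    refine Finset.sum_eq_zero fun i _ => Finset.sum_eq_zero fun j hj => ?_
    rw [bracket_term b hb _ _ i j (Finset.mem_Ici.mp hj), smul_zero]
  rw [h2, sub_zero] at h
  rw [h]
  refine Finset.sum_congr rfl fun i _ => ?_
  rw [zsmul_eq_mul]
  push_cast
  rfl

/-- The derivative in `s` of the degree integral vanishes. -/
theorem int_ds {m : ℕ} (b : Basis (Fin (m + 1)) ℝ (Sk 𝒜))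
    (hb : ∀ i j, i ≠ j → b.repr (brk (b j) (b i)) i = 0 ∧ b.repr (brk (b j) (b i)) j = 0)
    (φ : 𝒜 → ℝ) (W : ℝ × 𝒜 → 𝒜)
    (hφ : ContDiff ℝ 1 φ) (hW : ContDiff ℝ 2 W) (hWU : ∀ s, ∀ t ∈ unitary 𝒜, W (s, t) ∈ unitary 𝒜)
    (s : ℝ) : ∫ t : unitary 𝒜, fderiv ℝ (FF b φ W 0) (s, (t : 𝒜)) (1, 0) ∂(mu 𝒜) = 0 := by
  have hF : ∀ i, ContDiff ℝ 1 (FF b φ W i) := FF_contDiff b φ W hφ hW
  have hcont : ∀ i, Continuous (fun t : unitary 𝒜 =>
      fderiv ℝ (FF b φ W i) (s, (t : 𝒜)) (VF b i (s, (t : 𝒜)))) := by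
    intro i
    have h0 : Continuous (fun t : unitary 𝒜 => ((s, (t : 𝒜)) : ℝ × 𝒜)) := by fun_prop
    exact (((hF i).continuous_fderiv one_ne_zero).comp h0).clm_apply
      ((VF_contDiff b i).continuous.comp h0)
  have h1 : ∑ i : Fin (m + 2), (-1 : ℝ) ^ (i : ℕ) *
      ∫ t : unitary 𝒜, fderiv ℝ (FF b φ W i) (s, (t : 𝒜)) (VF b i (s, (t : 𝒜))) ∂(mu 𝒜) = 0 := by
    simp_rw [← integral_const_mul]
    rw [← integral_finsetSum _ (fun i _ => (cont_integrable (mu 𝒜) (hcont i)).const_mul _)]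
    rw [integral_congr_ae (Filter.Eventually.of_forall fun t : unitary 𝒜 =>
      stokes_pt b hb φ W hφ hW hWU s (t : 𝒜) t.2)]
    simp
  rw [Fin.sum_univ_succ] at h1
  have h2 : ∀ j : Fin (m + 1), ∫ t : unitary 𝒜,
      fderiv ℝ (FF b φ W j.succ) (s, (t : 𝒜)) (VF b j.succ (s, (t : 𝒜))) ∂(mu 𝒜) = 0 := by
    intro j
    have h3 := int_deriv (b j) (fun t => FF b φ W j.succ (s, t))
      ((hF j.succ).comp (by fun_prop))
    rw [← h3]
    refine integral_congr_ae (Filter.Eventually.of_forall fun t : unitary 𝒜 => ?_)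
    have h4 : HasFDerivAt (fun t : 𝒜 => FF b φ W j.succ (s, t))
        ((fderiv ℝ (FF b φ W j.succ) (s, (t : 𝒜))).comp (ContinuousLinearMap.inr ℝ ℝ 𝒜))
        (t : 𝒜) :=
      (((hF j.succ).differentiable one_ne_zero (s, (t : 𝒜))).hasFDerivAt).comp (t : 𝒜)
        (hasFDerivAt_prodMk_right s (t : 𝒜))
    simp only [h4.fderiv]
    rfl
  simp only [h2, mul_zero, Finset.sum_const_zero, add_zero, Fin.val_zero, pow_zero, one_mul,
    VF_zero] at h1
  exact h1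

/-- Homotopy invariance of the degree integral. -/
theorem homotopy {m : ℕ} (b : Basis (Fin (m + 1)) ℝ (Sk 𝒜))
    (hb : ∀ i j, i ≠ j → b.repr (brk (b j) (b i)) i = 0 ∧ b.repr (brk (b j) (b i)) j = 0)
    (φ : 𝒜 → ℝ) (W : ℝ × 𝒜 → 𝒜)
    (hφ : ContDiff ℝ 1 φ) (hW : ContDiff ℝ 2 W) (hWU : ∀ s, ∀ t ∈ unitary 𝒜, W (s, t) ∈ unitary 𝒜)
    (s s' : ℝ) :
    ∫ t : unitary 𝒜, FF b φ W 0 (s, (t : 𝒜)) ∂(mu 𝒜)
      = ∫ t : unitary 𝒜, FF b φ W 0 (s', (t : 𝒜)) ∂(mu 𝒜) := by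
  have hF : ContDiff ℝ 1 (FF b φ W 0) := FF_contDiff b φ W hφ hW 0
  have hd : ∀ s : ℝ, HasDerivAt (fun s => ∫ t : unitary 𝒜, FF b φ W 0 (s, (t : 𝒜)) ∂(mu 𝒜)) 0 s := by
    intro s
    have h := hasDerivAt_int (mu 𝒜) (F := fun s t => FF b φ W 0 (s, (t : 𝒜)))
      (F' := fun s t => fderiv ℝ (FF b φ W 0) (s, (t : 𝒜)) (1, 0))
      (fun r => hF.continuous.comp (by fun_prop)) (by
        have h0 : Continuous (fun p : ℝ × unitary 𝒜 => ((p.1, (p.2 : 𝒜)) : ℝ × 𝒜)) := by fun_prop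
        exact ((hF.continuous_fderiv one_ne_zero).comp h0).clm_apply continuous_const)
      (fun r t => by
        have h1 : HasDerivAt (fun r : ℝ => ((r, (t : 𝒜)) : ℝ × 𝒜)) (1, 0) r :=
          (hasDerivAt_id r).prodMk (hasDerivAt_const r (t : 𝒜))
        exact (hF.differentiable one_ne_zero _).hasFDerivAt.comp_hasDerivAt r h1) s
    rwa [int_ds b hb φ W hφ hW hWU s] at h
  exact is_const_of_deriv_eq_zero (fun s => (hd s).differentiableAt) (fun s => (hd s).deriv) s s'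

end Pool.Agent.H76.GR
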