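import Mathlib
import Pool.Agent.H76.GR.Stokes

/-! Coordinate-free form of the homotopy invariance. -/

set_option autoImplicit false
set_option linter.unusedSectionVars false

namespace Pool.Agent.H76.GR

open MeasureTheory VectorField Module

variable {𝒜 : Type*} [CStarAlgebra 𝒜]

/-- A faithful positive trace (real part). -/
structure IsTr (τ : 𝒜 →ₗ[ℝ] ℝ) : Prop where
  comm : ∀ x y, τ (x * y) = τ (y * x)
  pos : ∀ x, x ≠ 0 → 0 < τ (star x * x)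

variable [FiniteDimensional ℂ 𝒜]

/-- The trace form on skew-adjoint elements. -/
noncomputable def bil (τ : 𝒜 →ₗ[ℝ] ℝ) : LinearMap.BilinForm ℝ (Sk 𝒜) :=
  LinearMap.mk₂ ℝ (fun x y => τ ((x : 𝒜) * y))
    (by intro a b c; simp [add_mul]) (by intro c a b; simp)
    (by intro a b c; simp [mul_add]) (by intro c a b; simp)

@[simp] theorem bil_apply (τ : 𝒜 →ₗ[ℝ] ℝ) (x y : Sk 𝒜) : bil τ x y = τ ((x : 𝒜) * y) := rfl

theorem exists_ob (τ : 𝒜 →ₗ[ℝ] ℝ) (hτ : IsTr τ) :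
    ∃ b : Basis (Fin (finrank ℝ (Sk 𝒜))) ℝ (Sk 𝒜),
      ∀ i j, i ≠ j → b.repr (brk (b j) (b i)) i = 0 ∧ b.repr (brk (b j) (b i)) j = 0 := by
  have hsymm : LinearMap.IsSymm (bil τ) := ⟨fun x y => by simpa using hτ.comm _ _⟩
  obtain ⟨b, hb⟩ := LinearMap.BilinForm.exists_orthogonal_basis hsymm
  have hb' : ∀ i j, i ≠ j → bil τ (b i) (b j) = 0 := LinearMap.isOrthoᵢ_def.mp hb
  have hself : ∀ i, bil τ (b i) (b i) ≠ 0 := by
    intro i h
    have hne : (b i : 𝒜) ≠ 0 := fun h0 => b.ne_zero i (Subtype.ext h0)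
    have h1 := hτ.pos _ hne
    rw [mem_Sk.mp (b i).2, neg_mul, map_neg] at h1
    rw [bil_apply] at h
    rw [h] at h1
    simp at h1
  have hrepr : ∀ (Z : Sk 𝒜) i, bil τ Z (b i) = 0 → b.repr Z i = 0 := by
    intro Z i hZ
    have h1 := b.sum_repr Z
    rw [← h1, map_sum, LinearMap.sum_apply, Finset.sum_eq_single i] at hZ
    · rw [map_smul, LinearMap.smul_apply, smul_eq_mul] at hZ
      exact (mul_eq_zero.mp hZ).resolve_right (hself i)
    · intro j _ hj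
      rw [map_smul, LinearMap.smul_apply, hb' j i hj, smul_zero]
    · simp
  refine ⟨b, fun i j _ => ⟨hrepr _ _ ?_, hrepr _ _ ?_⟩⟩
  · rw [bil_apply, coe_brk, sub_mul, map_sub, sub_eq_zero, hτ.comm ((b i : 𝒜) * b j) (b i),
      ← mul_assoc, mul_assoc (b j : 𝒜), hτ.comm (b j : 𝒜)]
  · rw [bil_apply, coe_brk, sub_mul, map_sub, sub_eq_zero, hτ.comm ((b j : 𝒜) * b i) (b j),
      ← mul_assoc, mul_assoc (b i : 𝒜), hτ.comm (b i : 𝒜)]

theorem homotopy_tr (τ : 𝒜 →ₗ[ℝ] ℝ) (hτ : IsTr τ) (φ : 𝒜 → ℝ) (W : ℝ × 𝒜 → 𝒜)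
    (hφ : ContDiff ℝ 1 φ) (hW : ContDiff ℝ 2 W) (hWU : ∀ s, ∀ t ∈ unitary 𝒜, W (s, t) ∈ unitary 𝒜)
    (L : ℝ → unitary 𝒜 → (Sk 𝒜 →ₗ[ℝ] Sk 𝒜))
    (hL : ∀ s (t : unitary 𝒜) X, ((L s t X : Sk 𝒜) : 𝒜)
      = fderiv ℝ W (s, (t : 𝒜)) (0, (X : 𝒜) * t) * star (W (s, (t : 𝒜))))
    (s s' : ℝ) :
    ∫ t : unitary 𝒜, φ (W (s, (t : 𝒜))) * LinearMap.det (L s t) ∂(mu 𝒜)
      = ∫ t : unitary 𝒜, φ (W (s', (t : 𝒜))) * LinearMap.det (L s' t) ∂(mu 𝒜) := by
  rcases subsingleton_or_nontrivial 𝒜 with hs | hn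
  · have h1 : ∀ t, W (s, t) = W (s', t) := fun t => Subsingleton.elim _ _
    have h2 : L s = L s' := by
      funext t
      refine LinearMap.ext fun X => Subtype.ext (Subsingleton.elim _ _)
    simp only [h1, h2]
  · obtain ⟨m, hm⟩ : ∃ m, finrank ℝ (Sk 𝒜) = m + 1 := by
      refine Nat.exists_eq_succ_of_ne_zero ?_
      have : Nontrivial (Sk 𝒜) := by
        refine ⟨⟨⟨Complex.I • (1 : 𝒜), ?_⟩, 0, ?_⟩⟩
        · rw [mem_Sk, star_smul, star_one]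
          simp
        · intro h
          have h1 := congrArg Subtype.val h
          simp at h1
      exact finrank_pos.ne'
    obtain ⟨k, hk, b, hb⟩ : ∃ k, k = m + 1 ∧ ∃ b : Basis (Fin k) ℝ (Sk 𝒜),
      ∀ i j, i ≠ j → b.repr (brk (b j) (b i)) i = 0 ∧ b.repr (brk (b j) (b i)) j = 0 :=
      ⟨_, hm, exists_ob τ hτ⟩
    subst hk
    have key : ∀ s (t : unitary 𝒜), FF b φ W 0 (s, (t : 𝒜))
        = φ (W (s, (t : 𝒜))) * LinearMap.det (L s t) := by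
      intro s t
      rw [FF_eq, ← LinearMap.det_toMatrix b (L s t), ← Matrix.det_transpose]
      congr 2
      ext c a
      simp only [Matrix.transpose_apply, Matrix.of_apply, Fin.succAbove_zero, VF_succ,
        LinearMap.toMatrix_apply]
      rw [← hL, P_apply_mem]
    have h := homotopy b hb φ W hφ hW hWU s s'
    simpa only [key] using h

end Pool.Agent.H76.GR
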