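import Mathlib
import Pool.Agent.H76.GR.Homotopy

/-! First-order jets of word maps on unitary groups. -/

set_option autoImplicit false
set_option linter.unusedSectionVars false

namespace Pool.Agent.H76.GR

open MeasureTheory Module Monoid

variable {A : Type*} [CStarAlgebra A]

theorem conj_mem_Sk (k : unitary A) (X : Sk A) : (k : A) * X * star (k : A) ∈ Sk A := by
  rw [mem_Sk, star_mul, star_mul, star_star, mem_Sk.mp X.2]
  noncomm_ring

/-- The adjoint action. -/
noncomputable def Ad : unitary A →* Module.End ℝ (Sk A) where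
  toFun k :=
    { toFun := fun X => ⟨(k : A) * X * star (k : A), conj_mem_Sk k X⟩
      map_add' := fun X Y => by ext; simp [mul_add, add_mul]
      map_smul' := fun r X => by ext; simp }
  map_one' := by ext; simp
  map_mul' k l := by ext; simp [mul_assoc]

@[simp] theorem coe_Ad (k : unitary A) (X : Sk A) :
    ((Ad k X : Sk A) : A) = (k : A) * X * star (k : A) := rfl

/-- Jets: a unitary together with the (right-trivialised) differential. -/
@[ext] structure Jet (A : Type*) [CStarAlgebra A] (n : ℕ) where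
  /-- value -/
  v : unitary A
  /-- differential -/
  d : Sk (Fin n → A) →ₗ[ℝ] Sk A

namespace Jet

variable {n : ℕ}

noncomputable instance : Mul (Jet A n) := ⟨fun a b => ⟨a.v * b.v, a.d + (Ad a.v).comp b.d⟩⟩
noncomputable instance : One (Jet A n) := ⟨⟨1, 0⟩⟩
noncomputable instance : Inv (Jet A n) := ⟨fun a => ⟨a.v⁻¹, -((Ad a.v⁻¹).comp a.d)⟩⟩

@[simp] theorem mul_v (a b : Jet A n) : (a * b).v = a.v * b.v := rfl
@[simp] theorem mul_d (a b : Jet A n) : (a * b).d = a.d + (Ad a.v).comp b.d := rfl
@[simp] theorem one_v : (1 : Jet A n).v = 1 := rfl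
@[simp] theorem one_d : (1 : Jet A n).d = 0 := rfl
@[simp] theorem inv_v (a : Jet A n) : (a⁻¹).v = a.v⁻¹ := rfl
@[simp] theorem inv_d (a : Jet A n) : (a⁻¹).d = -((Ad a.v⁻¹).comp a.d) := rfl

noncomputable instance : Group (Jet A n) where
  mul_assoc a b c := by
    ext1
    · simp [mul_assoc]
    · refine LinearMap.ext fun X => ?_
      simp [add_assoc]
  one_mul a := by
    ext1
    · simp
    · refine LinearMap.ext fun X => ?_
      simp
  mul_one a := by
    ext1
    · simp
    · refine LinearMap.ext fun X => ?_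
      simp
  inv_mul_cancel a := by
    ext1
    · simp
    · refine LinearMap.ext fun X => ?_
      simp

/-- Constant jets. -/
noncomputable def const (n : ℕ) : unitary A →* Jet A n where
  toFun k := ⟨k, 0⟩
  map_one' := rfl
  map_mul' k l := by
    ext1
    · simp
    · refine LinearMap.ext fun X => ?_
      simp

@[simp] theorem const_v (k : unitary A) : (const n k).v = k := rfl
@[simp] theorem const_d (k : unitary A) : (const n k).d = 0 := rfl

end Jet

variable {n : ℕ}

/-- Coordinates of a unitary in the product algebra. -/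
def co (k : Fin n) (t : unitary (Fin n → A)) : unitary A :=
  ⟨(t : Fin n → A) k, by
    have h1 := congrFun (Unitary.coe_star_mul_self t) k
    have h2 := congrFun (Unitary.coe_mul_star_self t) k
    exact Unitary.mem_iff.mpr ⟨h1, h2⟩⟩

@[simp] theorem coe_co (k : Fin n) (t : unitary (Fin n → A)) :
    (co k t : A) = (t : Fin n → A) k := rfl

/-- Coordinates of a skew-adjoint element in the product algebra. -/
noncomputable def cosk (A : Type*) [CStarAlgebra A] {n : ℕ} (k : Fin n) :
    Sk (Fin n → A) →ₗ[ℝ] Sk A where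
  toFun X := ⟨(X : Fin n → A) k, congrFun (mem_Sk.mp X.2) k⟩
  map_add' _ _ := rfl
  map_smul' _ _ := rfl

@[simp] theorem coe_cosk (k : Fin n) (X : Sk (Fin n → A)) :
    ((cosk A k X : Sk A) : A) = (X : Fin n → A) k := rfl

/-- The word group over the unitary group. -/
abbrev WU (A : Type*) [CStarAlgebra A] (n : ℕ) := Coprod (unitary A) (FreeGroup (Fin n))

/-- The jet of a word at a point. -/
noncomputable def jet (t : unitary (Fin n → A)) : WU A n →* Jet A n :=
  Coprod.lift (Jet.const n) (FreeGroup.lift fun k => ⟨co k t, cosk A k⟩)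

@[simp] theorem jet_inl (t : unitary (Fin n → A)) (c : unitary A) :
    jet t (Coprod.inl c) = Jet.const n c := by simp [jet]

@[simp] theorem jet_var (t : unitary (Fin n → A)) (k : Fin n) :
    jet t (Coprod.inr (FreeGroup.of k)) = ⟨co k t, cosk A k⟩ := by simp [jet]

/-- Assemble a differential from its rows. -/
noncomputable def rows (f : Fin n → (Sk (Fin n → A) →ₗ[ℝ] Sk A)) :
    Sk (Fin n → A) →ₗ[ℝ] Sk (Fin n → A) where
  toFun X := ⟨fun j => (f j X : A), by
    rw [mem_Sk]
    funext j
    exact mem_Sk.mp (f j X).2⟩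
  map_add' X Y := by
    ext j
    simp
  map_smul' r X := by
    ext j
    simp

@[simp] theorem coe_rows (f : Fin n → (Sk (Fin n → A) →ₗ[ℝ] Sk A)) (X : Sk (Fin n → A))
    (j : Fin n) : ((rows f X : Sk (Fin n → A)) : Fin n → A) j = (f j X : A) := rfl

/-- Smooth families of jets. -/
def Nice (f : ℝ → unitary (Fin n → A) → Jet A n) : Prop :=
  ∃ F : ℝ × (Fin n → A) → A, ContDiff ℝ 2 F ∧
    (∀ s (t : unitary (Fin n → A)), F (s, (t : Fin n → A)) = ((f s t).v : A)) ∧
    ∀ s (t : unitary (Fin n → A)) (X : Sk (Fin n → A)),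
      fderiv ℝ F (s, (t : Fin n → A)) (0, (X : Fin n → A) * t)
        = (((f s t).d X : Sk A) : A) * ((f s t).v : A)

theorem Nice.mul {f g : ℝ → unitary (Fin n → A) → Jet A n} (hf : Nice f) (hg : Nice g) :
    Nice (fun s t => f s t * g s t) := by
  obtain ⟨F, hF, hF1, hF2⟩ := hf
  obtain ⟨G, hG, hG1, hG2⟩ := hg
  refine ⟨fun x => F x * G x, hF.mul hG, fun s t => ?_, fun s t X => ?_⟩
  · simp [hF1, hG1]
  · rw [fderiv_fun_mul' (hF.differentiable two_ne_zero _) (hG.differentiable two_ne_zero _)]
    have e1 : ((f s t).v : A) * ((g s t).d X : A) * (star ((f s t).v : A)) *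
        (((f s t).v : A) * ((g s t).v : A))
        = ((f s t).v : A) * (((g s t).d X : A) * ((g s t).v : A)) := by
      calc _ = ((f s t).v : A) * ((g s t).d X : A) * (star ((f s t).v : A) *
          ((f s t).v : A)) * ((g s t).v : A) := by noncomm_ring
        _ = _ := by rw [Unitary.coe_star_mul_self, mul_one, mul_assoc]
    simp only [_root_.add_apply, _root_.smul_apply, hF1, hG1, hF2, hG2, Jet.mul_v, Jet.mul_d,
      LinearMap.add_apply, LinearMap.comp_apply, Submodule.coe_add, coe_Ad, add_mul, smul_eq_mul,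
      MulOpposite.smul_eq_mul_unop, MulOpposite.unop_op, Submonoid.coe_mul, e1]
    rw [add_comm, mul_assoc]

theorem Nice.inv {f : ℝ → unitary (Fin n → A) → Jet A n} (hf : Nice f) :
    Nice (fun s t => (f s t)⁻¹) := by
  obtain ⟨F, hF, hF1, hF2⟩ := hf
  refine ⟨fun x => star (F x), ((starL' ℝ : A ≃L[ℝ] A).contDiff).comp hF, fun s t => ?_,
    fun s t X => ?_⟩
  · simp only [hF1]
    rfl
  · have h1 : fderiv ℝ (fun x => star (F x)) (s, (t : Fin n → A))
        = ((starL' ℝ : A ≃L[ℝ] A) : A →L[ℝ] A).comp (fderiv ℝ F (s, (t : Fin n → A))) :=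
      ((starL' ℝ : A ≃L[ℝ] A).hasFDerivAt.comp _
        (hF.differentiable two_ne_zero (s, (t : Fin n → A))).hasFDerivAt).fderiv
    rw [h1]
    have h2 : (((f s t).v⁻¹ : unitary A) : A) = star ((f s t).v : A) := rfl
    have h3 : star (star ((f s t).v : A)) = ((f s t).v : A) := star_star _
    simp only [ContinuousLinearMap.comp_apply, hF2, Jet.inv_v, Jet.inv_d, LinearMap.neg_apply,
      LinearMap.comp_apply, Submodule.coe_neg, coe_Ad, h2, h3]
    change star _ = _
    rw [star_mul, mem_Sk.mp ((f s t).d X).2, neg_mul, mul_assoc _ ((f s t).v : A),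
      Unitary.mul_star_self_of_mem (f s t).v.2, mul_one, mul_neg]

theorem Nice.const (c : unitary A) : Nice (n := n) (fun _ _ => Jet.const n c) := by
  refine ⟨fun _ => (c : A), contDiff_const, fun s t => rfl, fun s t X => ?_⟩
  simp

theorem Nice.var (k : Fin n) : Nice (A := A) (fun _ t => ⟨co k t, cosk A k⟩) := by
  refine ⟨fun x => x.2 k, by fun_prop, fun s t => rfl, fun s t X => ?_⟩
  have h : (fun x : ℝ × (Fin n → A) => x.2 k)
      = ⇑((ContinuousLinearMap.proj (R := ℝ) (φ := fun _ : Fin n => A) k).comp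
        (ContinuousLinearMap.snd ℝ ℝ (Fin n → A))) := rfl
  rw [h, ContinuousLinearMap.fderiv]
  rfl

theorem Nice.jet (w : WU A n) : Nice (fun _ t => jet t w) := by
  induction w using Coprod.induction_on with
  | inl c =>
    simpa using Nice.const c
  | inr x =>
    induction x using FreeGroup.induction_on with
    | C1 => simpa using Nice.const (n := n) (1 : unitary A)
    | of k => simpa using Nice.var k
    | inv_of k h => simpa using h.inv
    | mul x y hx hy => simpa using hx.mul hy
  | mul x y hx hy => simpa using hx.mul hy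

variable [FiniteDimensional ℂ A]

theorem Nice.exp (X : Sk A) : Nice (n := n) (fun s _ => Jet.const n (expU X s)) := by
  refine ⟨fun x => (expU X x.1 : A), ((contDiff_expU X).of_le le_top).comp contDiff_fst,
    fun s t => rfl, fun s t Y => ?_⟩
  have h0 : HasFDerivAt (fun r : ℝ => (expU X r : A)) _ s := (hasDerivAt_expU X s).hasFDerivAt
  have h1 : HasFDerivAt (fun x : ℝ × (Fin n → A) => (expU X x.1 : A)) _ (s, (t : Fin n → A)) :=
    HasFDerivAt.comp (g := fun r : ℝ => (expU X r : A)) (s, (t : Fin n → A)) h0 hasFDerivAt_fst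
  rw [h1.fderiv]
  simp

end Pool.Agent.H76.GR
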