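import Mathlib
import Pool.Agent.H76.GR.Haar
import Pool.Agent.H76.GR.Homotopy

/-! Every unitary in a finite-dimensional C*-algebra is an exponential. -/

set_option autoImplicit false
set_option linter.unusedSectionVars false

namespace Pool.Agent.H76.GR

open Module

variable {A : Type*} [CStarAlgebra A] [FiniteDimensional ℂ A]

theorem spectrum_finite (a : A) : (spectrum ℂ a).Finite := by
  refine (Module.End.finite_spectrum (Algebra.lmul ℂ A a)).subset fun z hz => ?_
  rw [spectrum.mem_iff] at hz ⊢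
  intro hu
  apply hz
  have h1 : algebraMap ℂ (Module.End ℂ A) z - Algebra.lmul ℂ A a
      = Algebra.lmul ℂ A (algebraMap ℂ A z - a) := by
    rw [map_sub]
    congr 1
    ext x
    simp [Algebra.smul_def]
  rw [h1, Module.End.isUnit_iff] at hu
  obtain ⟨b, hb⟩ := hu.2 1
  have hb1 : (algebraMap ℂ A z - a) * b = 1 := hb
  have hb2 : b * (algebraMap ℂ A z - a) = 1 := by
    apply hu.1
    change (algebraMap ℂ A z - a) * (b * (algebraMap ℂ A z - a)) = (algebraMap ℂ A z - a) * 1
    rw [← mul_assoc, hb1, one_mul, mul_one]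
  exact ⟨⟨_, b, hb1, hb2⟩, rfl⟩

open Complex in
theorem exists_log (c : unitary A) : ∃ X : Sk A, expU X 1 = c := by
  rcases subsingleton_or_nontrivial A with hs | hn
  · exact ⟨0, Subtype.ext (Subsingleton.elim _ _)⟩
  have hfin := spectrum_finite (c : A)
  obtain ⟨θ, hθ⟩ : ∃ θ : ℝ, -cexp (θ * I) ∉ spectrum ℂ (c : A) := by
    by_contra hcon
    push Not at hcon
    have hinf : (Set.Ioc (-Real.pi) Real.pi).Infinite :=
      Set.Ioc_infinite (by linarith [Real.pi_pos])
    refine Set.infinite_of_injOn_mapsTo (f := fun θ : ℝ => -cexp (θ * I)) ?_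
      (fun θ _ => hcon θ) hinf hfin
    intro x hx y hy hxy
    have h1 : cexp (x * I) = cexp (y * I) := neg_injective hxy
    rw [← Circle.coe_exp, ← Circle.coe_exp] at h1
    have h2 := congrArg Complex.arg h1
    rwa [Circle.arg_exp hx.1 hx.2, Circle.arg_exp hy.1 hy.2] at h2
  set z : ℂ := cexp (-(θ * I)) with hz
  have hz0 : z ≠ 0 := exp_ne_zero _
  have hzz : star z * z = 1 := by
    rw [hz, Complex.star_def, ← Complex.exp_conj, ← Complex.exp_add]
    simp
  have hu : z • (c : A) ∈ unitary A := by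
    rw [Unitary.mem_iff, star_smul, smul_mul_smul_comm, smul_mul_smul_comm, hzz,
      mul_comm z (star z), hzz, Unitary.coe_star_mul_self, Unitary.mul_star_self_of_mem c.2]
    simp
  have hspec : (-1 : ℂ) ∉ spectrum ℂ (z • (c : A)) := by
    intro h
    apply hθ
    have h1 : (Units.mk0 z hz0) • (-cexp (θ * I)) ∈ spectrum ℂ ((Units.mk0 z hz0) • (c : A)) := by
      have : (Units.mk0 z hz0) • (-cexp (θ * I)) = -1 := by
        rw [Units.smul_def, Units.val_mk0, smul_eq_mul, hz, mul_neg, ← Complex.exp_add]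
        simp
      rw [this]
      exact h
    exact spectrum.smul_mem_smul_iff.mp h1
  have hn2 := (Unitary.norm_sub_one_lt_two_iff hu).mpr hspec
  set u : unitary A := ⟨z • (c : A), hu⟩ with hu'
  have h3 := congrArg Subtype.val (_root_.expUnitary_argSelfAdjoint (u := u) hn2)
  rw [selfAdjoint.expUnitary_coe] at h3
  set a := Unitary.argSelfAdjoint u with ha
  have hX : (θ * I) • (1 : A) + I • (a : A) ∈ Sk A := by
    rw [mem_Sk, star_add, star_smul, star_smul, star_one]
    have ha' : star (a : A) = a := a.2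
    rw [ha']
    simp
    abel
  refine ⟨⟨_, hX⟩, Subtype.ext ?_⟩
  rw [coe_expU, one_smul]
  let +nondep : NormedAlgebra ℚ A := .restrictScalars ℚ ℂ A
  have hcomm : Commute ((θ * I) • (1 : A)) (I • (a : A)) := by
    rw [← Algebra.algebraMap_eq_smul_one]
    exact Algebra.commute_algebraMap_left _ _
  rw [NormedSpace.exp_add_of_commute hcomm, h3]
  have h4 : NormedSpace.exp ((θ * I) • (1 : A)) = cexp (θ * I) • (1 : A) := by
    rw [← Algebra.algebraMap_eq_smul_one, ← Algebra.algebraMap_eq_smul_one,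
      ← NormedSpace.algebraMap_exp_comm, ← Complex.exp_eq_exp_ℂ]
  rw [h4, smul_mul_assoc, one_mul, hu']
  change cexp (θ * I) • (z • (c : A)) = c
  rw [smul_smul, hz, ← Complex.exp_add]
  simp

end Pool.Agent.H76.GR
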