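import Mathlib
import Pool.Agent.H76.GR.Jet
import Pool.Agent.H76.GR.Log

/-! The degree integral of a system of words on a unitary group and its invariance. -/

set_option autoImplicit false
set_option linter.unusedSectionVars false

namespace Pool.Agent.H76.GR

open MeasureTheory Module Monoid

variable {A : Type*} [CStarAlgebra A] [FiniteDimensional ℂ A] {n : ℕ}

/-- The product trace. -/
noncomputable def trPi (τ : A →ₗ[ℝ] ℝ) (n : ℕ) : (Fin n → A) →ₗ[ℝ] ℝ :=
  ∑ k, τ.comp (LinearMap.proj k)

theorem trPi_apply (τ : A →ₗ[ℝ] ℝ) (x : Fin n → A) : trPi τ n x = ∑ k, τ (x k) := by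
  simp [trPi]

theorem trPi_isTr {τ : A →ₗ[ℝ] ℝ} (hτ : IsTr τ) : IsTr (trPi τ n) := by
  refine ⟨fun x y => ?_, fun x hx => ?_⟩
  · simp only [trPi_apply, Pi.mul_apply]
    exact Finset.sum_congr rfl fun k _ => hτ.comm _ _
  · obtain ⟨k, hk⟩ := Function.ne_iff.mp hx
    rw [trPi_apply]
    refine Finset.sum_pos' (fun i _ => ?_) ⟨k, Finset.mem_univ _, hτ.pos _ hk⟩
    by_cases h : x i = 0
    · simp [h]
    · exact (hτ.pos _ h).le

theorem fam {τ : A →ₗ[ℝ] ℝ} (hτ : IsTr τ) (f : Fin n → ℝ → unitary (Fin n → A) → Jet A n)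
    (hf : ∀ j, Nice (f j)) (φ : (Fin n → A) → ℝ) (hφ : ContDiff ℝ 1 φ) (s s' : ℝ) :
    ∫ t : unitary (Fin n → A), φ (fun j => ((f j s t).v : A)) *
        LinearMap.det (rows fun j => (f j s t).d) ∂(mu (Fin n → A))
      = ∫ t : unitary (Fin n → A), φ (fun j => ((f j s' t).v : A)) *
        LinearMap.det (rows fun j => (f j s' t).d) ∂(mu (Fin n → A)) := by
  choose F hF hF1 hF2 using hf
  have h := homotopy_tr (trPi τ n) (trPi_isTr hτ) φ (fun x j => F j x) hφ
    (contDiff_pi.mpr hF) (fun s t ht => by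
      have e1 : (fun j => F j (s, t)) = fun j => ((f j s ⟨t, ht⟩).v : A) := by
        funext j; exact hF1 j s ⟨t, ht⟩
      rw [e1, Unitary.mem_iff]
      constructor
      · funext j; exact Unitary.coe_star_mul_self (f j s ⟨t, ht⟩).v
      · funext j; exact Unitary.mul_star_self_of_mem (f j s ⟨t, ht⟩).v.2)
    (fun s t => rows fun j => (f j s t).d) (fun s t X => by
      funext j
      have e2 : fderiv ℝ (fun x j => F j x) (s, (t : Fin n → A))
          = ContinuousLinearMap.pi fun j => fderiv ℝ (F j) (s, (t : Fin n → A)) :=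
        (hasFDerivAt_pi.mpr fun j =>
          ((hF j).differentiable two_ne_zero (s, (t : Fin n → A))).hasFDerivAt).fderiv
      rw [e2, coe_rows, Pi.mul_apply, ContinuousLinearMap.pi_apply, hF2, Pi.star_apply, hF1,
        mul_assoc, Unitary.mul_star_self_of_mem (f j s t).v.2, mul_one]) s s'
  simpa only [hF1] using h

/-- The degree integral. -/
noncomputable def II (φ : (Fin n → A) → ℝ) (w : Fin n → WU A n) : ℝ :=
  ∫ t : unitary (Fin n → A), φ (fun j => ((jet t (w j)).v : A)) *
    LinearMap.det (rows fun j => (jet t (w j)).d) ∂(mu (Fin n → A))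

theorem II_const {τ : A →ₗ[ℝ] ℝ} (hτ : IsTr τ) {φ : (Fin n → A) → ℝ} (hφ : ContDiff ℝ 1 φ)
    (w : Fin n → WU A n) (j : Fin n) (u v : WU A n) (c : unitary A) :
    II φ (Function.update w j (u * Coprod.inl c * v)) = II φ (Function.update w j (u * v)) := by
  obtain ⟨X, rfl⟩ := exists_log c
  let f : Fin n → ℝ → unitary (Fin n → A) → Jet A n :=
    fun i s t => jet t (Function.update w j (u * Coprod.inl (expU X s) * v) i)
  have hf : ∀ i, Nice (f i) := by
    intro i
    by_cases h : i = j
    · subst h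
      simp only [f, Function.update_self, map_mul, jet_inl]
      exact ((Nice.jet u).mul (Nice.exp X)).mul (Nice.jet v)
    · simp only [f, Function.update_of_ne h]
      exact Nice.jet _
  have h := fam hτ f hf φ hφ 1 0
  simp only [f, expU_zero, map_one, mul_one] at h
  exact h

end Pool.Agent.H76.GR
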