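import Mathlib
import Pool.Agent.H76.GR.Degree

/-! Averaging: the degree integral is invariant under permutations of letters. -/

set_option autoImplicit false
set_option linter.unusedSectionVars false

namespace Pool.Agent.H76.GR

open MeasureTheory Module Monoid

instance instSecU {𝒜 : Type*} [CStarAlgebra 𝒜] [FiniteDimensional ℂ 𝒜] :
    SecondCountableTopology (unitary 𝒜) := by
  have : ProperSpace 𝒜 := FiniteDimensional.proper ℂ 𝒜
  infer_instance

section

variable {X Y Z : Type*} [TopologicalSpace X] [CompactSpace X] [T2Space X]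
  [SecondCountableTopology X]
  [MeasurableSpace X] [BorelSpace X] [TopologicalSpace Y] [CompactSpace Y] [T2Space Y]
  [SecondCountableTopology Y] [MeasurableSpace Y] [BorelSpace Y]
  [TopologicalSpace Z] [CompactSpace Z] [T2Space Z]
  [SecondCountableTopology Z] [MeasurableSpace Z] [BorelSpace Z]
  (μ : Measure X) (ν : Measure Y) (ρ : Measure Z)
  [IsFiniteMeasure μ] [IsFiniteMeasure ν] [IsFiniteMeasure ρ]

theorem swap2 {f : X → Y → ℝ} (hf : Continuous (Function.uncurry f)) :
    ∫ x, ∫ y, f x y ∂ν ∂μ = ∫ y, ∫ x, f x y ∂μ ∂ν :=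
  integral_integral_swap (cont_integrable _ hf)

theorem cont_int {f : X → Y → ℝ} (hf : Continuous (Function.uncurry f)) :
    Continuous (fun x => ∫ y, f x y ∂ν) := by
  have := continuous_parametric_integral_of_continuous (μ := ν) hf isCompact_univ
  simpa using this

theorem swap3 {f : X → Y → Z → ℝ} (hf : Continuous (fun p : X × Y × Z => f p.1 p.2.1 p.2.2)) :
    ∫ x, ∫ y, ∫ z, f x y z ∂ρ ∂ν ∂μ = ∫ z, ∫ x, ∫ y, f x y z ∂ν ∂μ ∂ρ := by
  have h1 : ∀ x, ∫ y, ∫ z, f x y z ∂ρ ∂ν = ∫ z, ∫ y, f x y z ∂ν ∂ρ := fun x =>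
    swap2 ν ρ (f := f x) (hf.comp (by fun_prop : Continuous fun p : Y × Z => (x, p.1, p.2)))
  simp_rw [h1]
  refine swap2 μ ρ (f := fun x z => ∫ y, f x y z ∂ν) ?_
  exact cont_int ν (f := fun (p : X × Z) y => f p.1 y p.2)
    (hf.comp (by fun_prop : Continuous fun p : (X × Z) × Y => (p.1.1, p.2, p.1.2)))

end

variable {A : Type*} [CStarAlgebra A] [FiniteDimensional ℂ A] {n : ℕ}

/-- Pointwise continuity of a family of differentials. -/
def CJ {X : Type*} [TopologicalSpace X] (F : X → (Sk (Fin n → A) →ₗ[ℝ] Sk A)) : Prop :=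
  ∀ Y, Continuous (fun x => (F x Y : A))

theorem cont_det {X : Type*} [TopologicalSpace X] (F : Fin n → X → (Sk (Fin n → A) →ₗ[ℝ] Sk A))
    (hF : ∀ j, CJ (F j)) : Continuous (fun x => LinearMap.det (rows fun j => F j x)) := by
  let b := Module.finBasis ℝ (Sk (Fin n → A))
  have h : ∀ x, LinearMap.det (rows fun j => F j x)
      = (LinearMap.toMatrix b b (rows fun j => F j x)).det := fun x =>
    (LinearMap.det_toMatrix b _).symm
  simp_rw [h]
  refine Continuous.matrix_det (continuous_matrix fun a c => ?_)
  simp only [LinearMap.toMatrix_apply]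
  have h1 : Continuous (fun x => (rows fun j => F j x) (b c)) := by
    refine Continuous.subtype_mk (continuous_pi fun j => ?_) _
    exact hF j (b c)
  exact ((b.coord a).continuous_of_finiteDimensional).comp h1

theorem Nice.cont_v {f : ℝ → unitary (Fin n → A) → Jet A n} (hf : Nice f) (s : ℝ) :
    Continuous (fun t => (f s t).v) := by
  obtain ⟨F, hF, hF1, hF2⟩ := hf
  refine continuous_induced_rng.mpr ?_
  have : (Subtype.val ∘ fun t => (f s t).v) = fun t : unitary (Fin n → A) =>
      F (s, (t : Fin n → A)) := by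
    funext t; exact (hF1 s t).symm
  rw [this]
  exact hF.continuous.comp (by fun_prop)

theorem Nice.cont_d {f : ℝ → unitary (Fin n → A) → Jet A n} (hf : Nice f) (s : ℝ) :
    CJ (fun t => (f s t).d) := by
  intro Y
  have hv := hf.cont_v s
  obtain ⟨F, hF, hF1, hF2⟩ := hf
  have : (fun t => ((f s t).d Y : A)) = fun t : unitary (Fin n → A) =>
      fderiv ℝ F (s, (t : Fin n → A)) (0, (Y : Fin n → A) * t) * star ((f s t).v : A) := by
    funext t
    rw [hF2, mul_assoc, Unitary.mul_star_self_of_mem (f s t).v.2, mul_one]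
  rw [this]
  have h0 : Continuous (fun t : unitary (Fin n → A) => ((s, (t : Fin n → A)) : ℝ × (Fin n → A))) :=
    by fun_prop
  have h1 : Continuous (fun t : unitary (Fin n → A) =>
      (((0 : ℝ), (Y : Fin n → A) * t) : ℝ × (Fin n → A))) := by fun_prop
  exact (((hF.continuous_fderiv two_ne_zero).comp h0).clm_apply h1).mul
    (continuous_star.comp (continuous_subtype_val.comp hv))

theorem cont_jet_v (w : WU A n) : Continuous (fun t => (jet t w).v) := (Nice.jet w).cont_v 0
theorem cont_jet_d (w : WU A n) : CJ (fun t => (jet t w).d) := (Nice.jet w).cont_d 0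

theorem CJ.add {X : Type*} [TopologicalSpace X] {F G : X → (Sk (Fin n → A) →ₗ[ℝ] Sk A)}
    (hF : CJ F) (hG : CJ G) : CJ (fun x => F x + G x) := fun Y => (hF Y).add (hG Y)

theorem CJ.ad {X : Type*} [TopologicalSpace X] {F : X → (Sk (Fin n → A) →ₗ[ℝ] Sk A)}
    (hF : CJ F) {k : X → unitary A} (hk : Continuous k) : CJ (fun x => (Ad (k x)).comp (F x)) := by
  intro Y
  have hk' : Continuous (fun x => (k x : A)) := continuous_subtype_val.comp hk
  exact (hk'.mul (hF Y)).mul (continuous_star.comp hk')

theorem CJ.comp' {X X' : Type*} [TopologicalSpace X] [TopologicalSpace X']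
    {F : X → (Sk (Fin n → A) →ₗ[ℝ] Sk A)} (hF : CJ F) {g : X' → X} (hg : Continuous g) :
    CJ (fun x => F (g x)) := fun Y => (hF Y).comp hg

/-- The averaged integrand. -/
noncomputable def Psi (w : Fin n → WU A n) (j : Fin n) (u x y : WU A n) (t : unitary (Fin n → A))
    (p q : unitary A) : ℝ :=
  LinearMap.det (rows (Function.update (fun i => (jet t (w i)).d) j
    ((jet t u).d + (Ad ((jet t u).v * p)).comp (jet t x).d
      + (Ad ((jet t u).v * q)).comp (jet t y).d)))

theorem cont_Psi (w : Fin n → WU A n) (j : Fin n) (u x y : WU A n) :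
    Continuous (fun z : unitary (Fin n → A) × unitary A × unitary A =>
      Psi w j u x y z.1 z.2.1 z.2.2) := by
  have h := cont_det (X := unitary (Fin n → A) × unitary A × unitary A)
    (fun i z => Function.update (fun i => (jet z.1 (w i)).d) j
    ((jet z.1 u).d + (Ad ((jet z.1 u).v * z.2.1)).comp (jet z.1 x).d
      + (Ad ((jet z.1 u).v * z.2.2)).comp (jet z.1 y).d) i) (by
    intro i
    by_cases hi : i = j
    · subst hi
      simp only [Function.update_self]
      have hv := (cont_jet_v u).comp
        (continuous_fst : Continuous (Prod.fst : unitary (Fin n → A) × unitary A × unitary A → _))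
      refine (((cont_jet_d u).comp' continuous_fst).add ?_).add ?_
      · exact ((cont_jet_d x).comp' continuous_fst).ad
          (hv.mul (continuous_fst.comp continuous_snd))
      · exact ((cont_jet_d y).comp' continuous_fst).ad
          (hv.mul (continuous_snd.comp continuous_snd))
    · simp only [Function.update_of_ne hi]
      exact (cont_jet_d _).comp' continuous_fst)
  exact h

theorem Psi_symm (w : Fin n → WU A n) (j : Fin n) (u x y : WU A n) (t : unitary (Fin n → A))
    (p q : unitary A) : Psi w j u x y t p q = Psi w j u y x t q p := by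
  unfold Psi
  rw [add_right_comm]

theorem II_insert {τ : A →ₗ[ℝ] ℝ} (hτ : IsTr τ) (w : Fin n → WU A n) (j : Fin n)
    (u x y : WU A n) (d c : unitary A) :
    II (fun _ => 1) (Function.update w j (u * (Coprod.inl d * x * Coprod.inl d⁻¹)
        * (Coprod.inl c * y * Coprod.inl c⁻¹)))
      = II (fun _ => 1) (Function.update w j (u * x * y)) := by
  have hφ : ContDiff ℝ 1 (fun _ : Fin n → A => (1 : ℝ)) := contDiff_const
  have h1 := II_const hτ hφ w j u (x * Coprod.inl d⁻¹ * (Coprod.inl c * y * Coprod.inl c⁻¹)) d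
  have h2 := II_const hτ hφ w j (u * x) (Coprod.inl c * y * Coprod.inl c⁻¹) d⁻¹
  have h3 := II_const hτ hφ w j (u * x) (y * Coprod.inl c⁻¹) c
  have h4 := II_const hτ hφ w j (u * x * y) 1 c⁻¹
  simp only [mul_assoc, mul_one] at h1 h2 h3 h4 ⊢
  rw [h1, h2, h3, h4]

theorem II_one (w : Fin n → WU A n) :
    II (fun _ => 1) w = ∫ t : unitary (Fin n → A),
      LinearMap.det (rows fun j => (jet t (w j)).d) ∂(mu (Fin n → A)) := by
  simp [II]

theorem jet_ins (t : unitary (Fin n → A)) (w : Fin n → WU A n) (j : Fin n)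
    (u x y : WU A n) (d c : unitary A) :
    LinearMap.det (rows fun i => (jet t (Function.update w j
      (u * (Coprod.inl d * x * Coprod.inl d⁻¹)
        * (Coprod.inl c * y * Coprod.inl c⁻¹)) i)).d)
      = Psi w j u x y t d ((d * (jet t x).v * d⁻¹) * c) := by
  have h : (fun i => (jet t (Function.update w j
      (u * (Coprod.inl d * x * Coprod.inl d⁻¹)
        * (Coprod.inl c * y * Coprod.inl c⁻¹)) i)).d)
      = Function.update (fun i => (jet t (w i)).d) j
    ((jet t u).d + (Ad ((jet t u).v * d)).comp (jet t x).d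
      + (Ad ((jet t u).v * ((d * (jet t x).v * d⁻¹) * c))).comp (jet t y).d) := by
    funext i
    by_cases hi : i = j
    · subst hi
      simp only [Function.update_self, map_mul, jet_inl, Jet.mul_d, Jet.mul_v, Jet.const_d,
        Jet.const_v, LinearMap.comp_zero, add_zero, zero_add]
      rfl
    · simp only [Function.update_of_ne hi]
  rw [h]
  rfl

attribute [irreducible] Psi

theorem cont_aux (w : Fin n → WU A n) (j : Fin n) (u x y : WU A n) :
    Continuous (fun p : unitary A × unitary A × unitary (Fin n → A) =>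
      Psi w j u x y p.2.2 p.1 ((p.1 * (jet p.2.2 x).v * p.1⁻¹) * p.2.1)) := by
  have hx : Continuous (fun p : unitary A × unitary A × unitary (Fin n → A) => (jet p.2.2 x).v) :=
    (cont_jet_v x).comp (continuous_snd.comp continuous_snd)
  have h1 : Continuous (fun p : unitary A × unitary A × unitary (Fin n → A) =>
      (p.1 * (jet p.2.2 x).v * p.1⁻¹) * p.2.1) :=
    ((continuous_fst.mul hx).mul continuous_fst.inv).mul (continuous_fst.comp continuous_snd)
  have hg : Continuous (fun p : unitary A × unitary A × unitary (Fin n → A) =>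
      (p.2.2, p.1, (p.1 * (jet p.2.2 x).v * p.1⁻¹) * p.2.1)) :=
    (continuous_snd.comp continuous_snd).prodMk (continuous_fst.prodMk h1)
  exact (cont_Psi w j u x y).comp hg

theorem cont_aux2 (w : Fin n → WU A n) (j : Fin n) (u x y : WU A n) (t : unitary (Fin n → A)) :
    Continuous (Function.uncurry fun d c : unitary A => Psi w j u x y t d c) := by
  have hg : Continuous (fun p : unitary A × unitary A => (t, p.1, p.2)) :=
    continuous_const.prodMk (continuous_fst.prodMk continuous_snd)
  exact (cont_Psi w j u x y).comp hg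

theorem II_avg {τ : A →ₗ[ℝ] ℝ} (hτ : IsTr τ) (w : Fin n → WU A n) (j : Fin n)
    (u x y : WU A n) :
    II (fun _ => 1) (Function.update w j (u * x * y))
      = ∫ t : unitary (Fin n → A), ∫ d : unitary A, ∫ c : unitary A,
        Psi w j u x y t d c ∂(mu A) ∂(mu A) ∂(mu (Fin n → A)) := by
  have h1 : II (fun _ => 1) (Function.update w j (u * x * y))
      = ∫ d : unitary A, ∫ c : unitary A, ∫ t : unitary (Fin n → A),
        Psi w j u x y t d ((d * (jet t x).v * d⁻¹) * c) ∂(mu (Fin n → A)) ∂(mu A) ∂(mu A) := by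
    have h2 : ∀ d c : unitary A, ∫ t : unitary (Fin n → A),
        Psi w j u x y t d ((d * (jet t x).v * d⁻¹) * c) ∂(mu (Fin n → A))
        = II (fun _ => 1) (Function.update w j (u * x * y)) := by
      intro d c
      rw [← II_insert hτ w j u x y d c, II_one]
      exact integral_congr_ae (Filter.Eventually.of_forall fun t => (jet_ins t w j u x y d c).symm)
    simp [h2]
  rw [h1, swap3 (mu A) (mu A) (mu (Fin n → A)) (f := fun d c t =>
    Psi w j u x y t d ((d * (jet t x).v * d⁻¹) * c)) (cont_aux w j u x y)]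
  refine integral_congr_ae (Filter.Eventually.of_forall fun t => ?_)
  refine integral_congr_ae (Filter.Eventually.of_forall fun d => ?_)
  exact integral_mul_left_eq_self (μ := mu A) (fun c : unitary A => Psi w j u x y t d c)
    (d * (jet t x).v * d⁻¹)

/-- End swap. -/
theorem II_endswap {τ : A →ₗ[ℝ] ℝ} (hτ : IsTr τ) (w : Fin n → WU A n) (j : Fin n)
    (u x y : WU A n) :
    II (fun _ => 1) (Function.update w j (u * x * y))
      = II (fun _ => 1) (Function.update w j (u * y * x)) := by
  rw [II_avg hτ, II_avg hτ]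
  refine integral_congr_ae (Filter.Eventually.of_forall fun t => ?_)
  have h := swap2 (mu A) (mu A) (cont_aux2 w j u x y t)
  refine h.trans ?_
  simp_rw [Psi_symm w j u x y]

theorem II_conj {τ : A →ₗ[ℝ] ℝ} (hτ : IsTr τ) (w : Fin n → WU A n) (j : Fin n)
    (g v : WU A n) :
    II (fun _ => 1) (Function.update w j (g * v * g⁻¹))
      = II (fun _ => 1) (Function.update w j v) := by
  rw [II_endswap hτ w j g v g⁻¹, mul_inv_cancel, one_mul]

theorem II_swap {τ : A →ₗ[ℝ] ℝ} (hτ : IsTr τ) (w : Fin n → WU A n) (j : Fin n)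
    (u x y v : WU A n) :
    II (fun _ => 1) (Function.update w j (u * x * y * v))
      = II (fun _ => 1) (Function.update w j (u * y * x * v)) := by
  have h1 := II_conj hτ w j v (u * x * y * v)
  have h2 := II_conj hτ w j v (u * y * x * v)
  have e1 : v * (u * x * y * v) * v⁻¹ = v * u * x * y := by group
  have e2 : v * (u * y * x * v) * v⁻¹ = v * u * y * x := by group
  rw [e1] at h1
  rw [e2] at h2
  rw [← h1, ← h2]
  exact II_endswap hτ w j (v * u) x y

end Pool.Agent.H76.GR
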