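import Mathlib
import Pool.Agent.H76.GR.Swap

/-! The degree integral only depends on the exponent sums. -/

set_option autoImplicit false
set_option linter.unusedSectionVars false

namespace Pool.Agent.H76.GR

open MeasureTheory Module Monoid

variable {A : Type*} [CStarAlgebra A] [FiniteDimensional ℂ A] {n : ℕ}

/-- Exponent sum of the `i`-th variable. -/
def eta (G : Type*) [Group G] {n : ℕ} (i : Fin n) :
    Coprod G (FreeGroup (Fin n)) →* Multiplicative ℤ :=
  Coprod.lift (1 : G →* Multiplicative ℤ)
          (FreeGroup.lift (fun k : Fin n =>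
            if k = i then Multiplicative.ofAdd (1 : ℤ) else 1))

@[simp] theorem eta_inl (G : Type*) [Group G] (i : Fin n) (g : G) :
    eta G i (Coprod.inl g) = 1 := by simp [eta]

@[simp] theorem eta_var (G : Type*) [Group G] (i k : Fin n) :
    eta G i (Coprod.inr (FreeGroup.of k)) = if k = i then Multiplicative.ofAdd (1 : ℤ) else 1 := by
  simp [eta]

/-- Elements that may be deleted from any word without changing the degree integral. -/
noncomputable def stab {τ : A →ₗ[ℝ] ℝ} (hτ : IsTr τ) (n : ℕ) : Subgroup (WU A n) where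
  carrier := {z | ∀ (w : Fin n → WU A n) (j : Fin n) (u v : WU A n),
    II (fun _ => 1) (Function.update w j (u * z * v))
      = II (fun _ => 1) (Function.update w j (u * v))}
  one_mem' := by intro w j u v; rw [mul_one]
  mul_mem' := by
    intro a b ha hb w j u v
    have e : u * (a * b) * v = u * a * b * v := by group
    rw [e, hb w j (u * a) v, ha w j u v]
  inv_mem' := by
    intro a ha w j u v
    have h := ha w j (u * a⁻¹) v
    rw [inv_mul_cancel_right] at h
    exact h.symm

theorem inl_mem_stab {τ : A →ₗ[ℝ] ℝ} (hτ : IsTr τ) (c : unitary A) :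
    (Coprod.inl c : WU A n) ∈ stab hτ n := fun w j u v =>
  II_const hτ contDiff_const w j u v c

theorem comm_mem_stab {τ : A →ₗ[ℝ] ℝ} (hτ : IsTr τ) (x y : WU A n) :
    x * y * x⁻¹ * y⁻¹ ∈ stab hτ n := by
  intro w j u v
  have e : u * (x * y * x⁻¹ * y⁻¹) * v = u * x * y * (x⁻¹ * y⁻¹ * v) := by group
  rw [e, II_swap hτ w j u x y]
  congr 2
  group

instance stab_normal {τ : A →ₗ[ℝ] ℝ} (hτ : IsTr τ) : (stab hτ n).Normal := by
  refine ⟨fun x hx g => ?_⟩
  have e : g * x * g⁻¹ = (g * x * g⁻¹ * x⁻¹) * x := by group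
  rw [e]
  exact (stab hτ n).mul_mem (comm_mem_stab hτ g x) hx

noncomputable instance qcomm {τ : A →ₗ[ℝ] ℝ} (hτ : IsTr τ) :
    CommGroup (WU A n ⧸ stab hτ n) where
  mul_comm a b := by
    induction a using QuotientGroup.induction_on with
    | H a =>
      induction b using QuotientGroup.induction_on with
      | H b =>
        rw [← QuotientGroup.mk_mul, ← QuotientGroup.mk_mul, QuotientGroup.eq]
        have e : (a * b)⁻¹ * (b * a) = b⁻¹ * a⁻¹ * b⁻¹⁻¹ * a⁻¹⁻¹ := by group
        rw [e]
        exact comm_mem_stab hτ _ _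

theorem mk_eq {τ : A →ₗ[ℝ] ℝ} (hτ : IsTr τ) :
    QuotientGroup.mk' (stab hτ n)
      = ∏ k : Fin n, (zpowersHom (WU A n ⧸ stab hτ n)
          (QuotientGroup.mk' (stab hτ n) (Coprod.inr (FreeGroup.of k)))).comp
            (eta (unitary A) k) := by
  refine Coprod.hom_ext (MonoidHom.ext fun c => ?_) (FreeGroup.ext_hom _ _ fun i => ?_)
  · rw [MonoidHom.comp_apply, MonoidHom.comp_apply, MonoidHom.finsetProd_apply]
    simp only [MonoidHom.comp_apply, eta_inl, map_one, Finset.prod_const_one]
    exact (QuotientGroup.eq_one_iff _).mpr (inl_mem_stab hτ c)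
  · rw [MonoidHom.comp_apply, MonoidHom.comp_apply, MonoidHom.finsetProd_apply]
    simp only [MonoidHom.comp_apply, eta_var]
    rw [Finset.prod_eq_single i]
    · simp
    · intro b _ hb
      simp [Ne.symm hb]
    · simp

theorem II_congr_one {τ : A →ₗ[ℝ] ℝ} (hτ : IsTr τ) (w : Fin n → WU A n) (j : Fin n)
    (c c' : WU A n) (h : ∀ k, eta (unitary A) k c = eta (unitary A) k c') :
    II (fun _ => 1) (Function.update w j c) = II (fun _ => 1) (Function.update w j c') := by
  have h1 : QuotientGroup.mk' (stab hτ n) c = QuotientGroup.mk' (stab hτ n) c' := by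
    rw [mk_eq, MonoidHom.finsetProd_apply, MonoidHom.finsetProd_apply]
    refine Finset.prod_congr rfl fun k _ => ?_
    rw [MonoidHom.comp_apply, MonoidHom.comp_apply, h k]
  have h2 : c⁻¹ * c' ∈ stab hτ n := QuotientGroup.eq.mp h1
  have h3 := h2 w j c 1
  rw [mul_one, mul_one, mul_inv_cancel_left] at h3
  exact h3.symm

theorem II_congr {τ : A →ₗ[ℝ] ℝ} (hτ : IsTr τ) (w w' : Fin n → WU A n)
    (h : ∀ j k, eta (unitary A) k (w j) = eta (unitary A) k (w' j)) :
    II (fun _ => 1) w = II (fun _ => 1) w' := by
  have key : ∀ s : Finset (Fin n), II (fun _ => 1) (s.piecewise w' w) = II (fun _ => 1) w := by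
    intro s
    induction s using Finset.induction_on with
    | empty => simp
    | insert j s hj ih =>
      rw [Finset.piecewise_insert, ← ih]
      have e : s.piecewise w' w = Function.update (s.piecewise w' w) j (w j) := by
        rw [Function.eq_update_iff]
        exact ⟨by simp [hj], fun _ _ => rfl⟩
      conv_rhs => rw [e]
      exact II_congr_one hτ _ j _ _ fun k => (h j k).symm
  have := key Finset.univ
  rw [Finset.piecewise_univ] at this
  exact this.symm

end Pool.Agent.H76.GR
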