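import Mathlib
import Pool.Agent.H76.GR.Abel

/-! The Gerstenhaber–Rothaus theorem for unitary groups of finite-dimensional C*-algebras. -/

set_option autoImplicit false
set_option linter.unusedSectionVars false

namespace Pool.Agent.H76.GR

open MeasureTheory Module Monoid

theorem cont_det_end {V X : Type*} [NormedAddCommGroup V] [NormedSpace ℝ V]
    [FiniteDimensional ℝ V] [TopologicalSpace X] (F : X → (V →ₗ[ℝ] V))
    (hF : ∀ Y, Continuous (fun x => F x Y)) : Continuous (fun x => LinearMap.det (F x)) := by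
  let b := Module.finBasis ℝ V
  have h : ∀ x, LinearMap.det (F x) = (LinearMap.toMatrix b b (F x)).det := fun x =>
    (LinearMap.det_toMatrix b _).symm
  simp_rw [h]
  refine Continuous.matrix_det (continuous_matrix fun a c => ?_)
  simp only [LinearMap.toMatrix_apply]
  exact ((b.coord a).continuous_of_finiteDimensional).comp (hF (b c))

theorem det_pos_of_contraction {V : Type*} [NormedAddCommGroup V] [NormedSpace ℝ V]
    [FiniteDimensional ℝ V] (B : Module.End ℝ V) (hB : ∀ x, ‖B x‖ = ‖x‖) (r : ℝ) (hr0 : 0 ≤ r)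
    (hr : r < 1) : 0 < LinearMap.det (1 - r • B) := by
  have hne : ∀ s ∈ Set.Icc 0 r, LinearMap.det (1 - s • B) ≠ 0 := by
    intro s hs h0
    have h1 := (LinearMap.bot_lt_ker_of_det_eq_zero h0)
    obtain ⟨x, hx, hx0⟩ := (Submodule.ne_bot_iff _).mp h1.ne'
    rw [LinearMap.mem_ker, LinearMap.sub_apply, Module.End.one_apply, LinearMap.smul_apply,
      sub_eq_zero] at hx
    have h2 : ‖x‖ = s * ‖x‖ := by
      conv_lhs => rw [hx]
      rw [norm_smul, hB, Real.norm_eq_abs, abs_of_nonneg hs.1]
    have h3 : 0 < ‖x‖ := norm_pos_iff.mpr hx0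
    have h4 : s < 1 := hs.2.trans_lt hr
    nlinarith
  have hc : Continuous (fun s : ℝ => LinearMap.det (1 - s • B)) := by
    refine cont_det_end _ fun Y => ?_
    simp only [LinearMap.sub_apply, LinearMap.smul_apply]
    fun_prop
  by_contra hcon
  push Not at hcon
  have h0 : LinearMap.det (1 - (0 : ℝ) • B) = 1 := by simp
  have := intermediate_value_Icc' hr0 hc.continuousOn
  have h5 : (0 : ℝ) ∈ Set.Icc (LinearMap.det (1 - r • B)) (LinearMap.det (1 - (0 : ℝ) • B)) := by
    rw [h0]; exact ⟨hcon, zero_le_one⟩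
  obtain ⟨s, hs, hs0⟩ := this h5
  exact hne s hs hs0

theorem det_geom_nonneg {V : Type*} [NormedAddCommGroup V] [NormedSpace ℝ V]
    [FiniteDimensional ℝ V] (B : Module.End ℝ V) (hB : ∀ x, ‖B x‖ = ‖x‖) (m : ℕ) (hm : m ≠ 0) :
    0 ≤ LinearMap.det (∑ i ∈ Finset.range m, B ^ i) := by
  have hBm : ∀ x, ‖(B ^ m) x‖ = ‖x‖ := by
    intro x
    induction m with
    | zero => simp
    | succ k ih =>
      rcases eq_or_ne k 0 with rfl | hk
      · simp [hB]
      · rw [pow_succ', Module.End.mul_apply, hB, ih hk]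
  have hpos : ∀ r : ℝ, 0 ≤ r → r < 1 → 0 < LinearMap.det (∑ i ∈ Finset.range m, (r • B) ^ i) := by
    intro r hr0 hr1
    have h1 := det_pos_of_contraction B hB r hr0 hr1
    have h2 := det_pos_of_contraction (B ^ m) hBm (r ^ m) (pow_nonneg hr0 _)
      (pow_lt_one₀ hr0 hr1 hm)
    have h3 := geom_sum_mul_neg (r • B) m
    have h4 := congrArg LinearMap.det h3
    rw [map_mul, smul_pow] at h4
    rw [← h4] at h2
    exact (mul_pos_iff_of_pos_right h1).mp h2
  have hc : Continuous (fun r : ℝ => LinearMap.det (∑ i ∈ Finset.range m, (r • B) ^ i)) := by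
    refine cont_det_end _ fun Y => ?_
    simp only [LinearMap.sum_apply, smul_pow, LinearMap.smul_apply]
    fun_prop
  have h1 : Filter.Tendsto (fun r : ℝ => LinearMap.det (∑ i ∈ Finset.range m, (r • B) ^ i))
      (nhdsWithin 1 (Set.Iio 1))
      (nhds (LinearMap.det (∑ i ∈ Finset.range m, ((1 : ℝ) • B) ^ i))) :=
    (hc.tendsto 1).mono_left nhdsWithin_le_nhds
  rw [one_smul] at h1
  refine ge_of_tendsto h1 ?_
  filter_upwards [Ioo_mem_nhdsLT (zero_lt_one' ℝ)] with r hr
  exact (hpos r hr.1.le hr.2).le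

variable {A : Type*} [CStarAlgebra A] [FiniteDimensional ℂ A] {n : ℕ}

theorem norm_Ad {𝒜 : Type*} [CStarAlgebra 𝒜] (t : unitary 𝒜) (X : Sk 𝒜) : ‖Ad t X‖ = ‖X‖ := by
  change ‖(t : 𝒜) * X * star (t : 𝒜)‖ = ‖(X : 𝒜)‖
  have h : star (t : 𝒜) = ((star t : unitary 𝒜) : 𝒜) := rfl
  rw [h, CStarRing.norm_mul_coe_unitary, CStarRing.norm_coe_unitary_mul]

theorem jet_pow_d (t : unitary (Fin n → A)) (j : Fin n) (m : ℕ) (X : Sk (Fin n → A)) :
    (((jet t (Coprod.inr (FreeGroup.of j) ^ m)).d X : Sk A) : A)
      = (((∑ i ∈ Finset.range m, Ad t ^ i) X : Sk (Fin n → A)) : Fin n → A) j := by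
  have hv : ∀ m : ℕ, (jet t (Coprod.inr (FreeGroup.of j) ^ m)).v = (co j t) ^ m := by
    intro m
    induction m with
    | zero => simp
    | succ m ih => rw [pow_succ, map_mul, Jet.mul_v, ih, jet_var, pow_succ]
  have hco : ∀ m : ℕ, (co j t) ^ m = co j (t ^ m) := by
    intro m
    ext
    simp
  induction m with
  | zero => simp
  | succ m ih =>
    rw [pow_succ, map_mul, Jet.mul_d, LinearMap.add_apply, Submodule.coe_add, ih, hv, hco,
      Finset.sum_range_succ, LinearMap.add_apply, Submodule.coe_add, Pi.add_apply, jet_var,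
      LinearMap.comp_apply, coe_Ad, coe_cosk, coe_co, ← map_pow, coe_Ad]
    rfl

theorem II_pow_pos (m : ℕ) (hm : m ≠ 0) :
    0 < II (A := A) (fun _ => 1) (fun j : Fin n => Coprod.inr (FreeGroup.of j) ^ m) := by
  have hrow : ∀ t : unitary (Fin n → A),
      (rows fun j => (jet t (Coprod.inr (FreeGroup.of j) ^ m)).d)
        = ∑ i ∈ Finset.range m, Ad t ^ i := by
    intro t
    refine LinearMap.ext fun X => ?_
    ext j
    rw [coe_rows, jet_pow_d]
  have hc : Continuous (fun t : unitary (Fin n → A) =>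
      LinearMap.det (rows fun j => (jet t (Coprod.inr (FreeGroup.of j) ^ m)).d)) :=
    cont_det _ fun j => cont_jet_d _
  rw [II_one]
  refine hc.integral_pos_of_hasCompactSupport_nonneg_nonzero
    (HasCompactSupport.of_compactSpace _) (fun t => ?_) (x := 1) ?_
  · rw [hrow]
    exact det_geom_nonneg (Ad t) (norm_Ad t) m hm
  · rw [hrow, map_one]
    simp only [one_pow, Finset.sum_const, Finset.card_range]
    rw [← Nat.cast_smul_eq_nsmul ℝ, LinearMap.det_smul, map_one, mul_one]
    exact pow_ne_zero _ (Nat.cast_ne_zero.mpr hm)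

/-- The tuple of values of a system at a point. -/
noncomputable def VV (w : Fin n → WU A n) (t : unitary (Fin n → A)) : unitary (Fin n → A) :=
  ⟨fun j => ((jet t (w j)).v : A), by
    rw [Unitary.mem_iff]
    constructor
    · funext j; exact Unitary.coe_star_mul_self (jet t (w j)).v
    · funext j; exact Unitary.mul_star_self_of_mem (jet t (w j)).v.2⟩

theorem cont_VV (w : Fin n → WU A n) : Continuous (VV w) := by
  refine Continuous.subtype_mk (continuous_pi fun j => ?_) _
  exact continuous_subtype_val.comp (cont_jet_v (w j))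

theorem II_rmul {τ : A →ₗ[ℝ] ℝ} (hτ : IsTr τ) {φ : (Fin n → A) → ℝ} (hφ : ContDiff ℝ 1 φ)
    (w : Fin n → WU A n) (c : Fin n → unitary A) :
    II φ (fun j => w j * Coprod.inl (c j)) = II φ w := by
  have key : ∀ s : Finset (Fin n),
      II φ (s.piecewise (fun j => w j * Coprod.inl (c j)) w) = II φ w := by
    intro s
    induction s using Finset.induction_on with
    | empty => simp
    | insert j s hj ih =>
      rw [Finset.piecewise_insert, ← ih]
      have e : s.piecewise (fun j => w j * Coprod.inl (c j)) w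
          = Function.update (s.piecewise (fun j => w j * Coprod.inl (c j)) w) j (w j) := by
        rw [Function.eq_update_iff]
        exact ⟨by simp [hj], fun _ _ => rfl⟩
      conv_rhs => rw [e]
      have h := II_const hτ hφ (s.piecewise (fun j => w j * Coprod.inl (c j)) w) j (w j) 1 (c j)
      rwa [mul_one, mul_one] at h
  have := key Finset.univ
  rwa [Finset.piecewise_univ] at this

theorem II_eq_VV (φ : (Fin n → A) → ℝ) (w : Fin n → WU A n) (c : unitary (Fin n → A)) :
    II φ (fun j => w j * Coprod.inl (co j c))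
      = ∫ t : unitary (Fin n → A), φ ((VV w t * c : unitary (Fin n → A)) : Fin n → A) *
        LinearMap.det (rows fun j => (jet t (w j)).d) ∂(mu (Fin n → A)) := by
  unfold II
  refine integral_congr_ae (Filter.Eventually.of_forall fun t => ?_)
  simp only [map_mul, jet_inl, Jet.mul_d, Jet.const_d, LinearMap.comp_zero, add_zero, Jet.mul_v,
    Jet.const_v]
  rfl

theorem exists_one_of_II_ne {τ : A →ₗ[ℝ] ℝ} (hτ : IsTr τ) (w : Fin n → WU A n)
    (h : II (fun _ => 1) w ≠ 0) : ∃ t, VV w t = 1 := by
  by_contra hcon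
  push Not at hcon
  apply h
  -- the image is compact and misses `1`
  have hK : IsCompact (Set.range fun t => ((VV w t : unitary (Fin n → A)) : Fin n → A)) := by
    rw [← Set.image_univ]
    exact isCompact_univ.image (continuous_subtype_val.comp (cont_VV w))
  have h1 : (Set.range fun t => ((VV w t : unitary (Fin n → A)) : Fin n → A))ᶜ
      ∈ nhds (1 : Fin n → A) := by
    refine hK.isClosed.isOpen_compl.mem_nhds ?_
    rintro ⟨t, ht⟩
    exact hcon t (Subtype.ext ht)
  obtain ⟨φ, hφs, -, hφ, hφr, hφ1⟩ := exists_contDiff_tsupport_subset (n := 1) h1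
  have hφ' : ContDiff ℝ 1 φ := hφ
  have hφ0 : ∀ x, 0 ≤ φ x := fun x => (hφr ⟨x, rfl⟩).1
  have hz : ∀ t, φ ((VV w t : unitary (Fin n → A)) : Fin n → A) = 0 := by
    intro t
    by_contra hne
    have h2 : ((VV w t : unitary (Fin n → A)) : Fin n → A) ∈ tsupport φ :=
      subset_tsupport _ hne
    exact hφs h2 ⟨t, rfl⟩
  have hIφ : II φ w = 0 := by
    have h3 := II_eq_VV φ w 1
    simp only [mul_one, hz, zero_mul, integral_zero] at h3
    rw [← II_rmul hτ hφ' w (fun j => co j 1)]
    exact h3
  have hpos : 0 < ∫ c : unitary (Fin n → A), φ (c : Fin n → A) ∂(mu (Fin n → A)) := by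
    refine (hφ'.continuous.comp continuous_subtype_val).integral_pos_of_hasCompactSupport_nonneg_nonzero
      (HasCompactSupport.of_compactSpace _) (fun c => hφ0 _) (x := 1) ?_
    simp [hφ1]
  set J : unitary (Fin n → A) → ℝ := fun t => LinearMap.det (rows fun j => (jet t (w j)).d) with hJ
  have hJc : Continuous J := cont_det _ fun j => cont_jet_d _
  have h4 : ∫ c : unitary (Fin n → A), ∫ t : unitary (Fin n → A),
      φ ((VV w t * c : unitary (Fin n → A)) : Fin n → A) * J t ∂(mu (Fin n → A))
        ∂(mu (Fin n → A)) = 0 := by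
    have h5 : ∀ c : unitary (Fin n → A), ∫ t : unitary (Fin n → A),
      φ ((VV w t * c : unitary (Fin n → A)) : Fin n → A) * J t ∂(mu (Fin n → A)) = 0 := by
      intro c
      rw [← II_eq_VV φ w c, II_rmul hτ hφ' w, hIφ]
    simp only [h5, integral_zero]
  have hcont : Continuous (Function.uncurry fun c t : unitary (Fin n → A) =>
      φ ((VV w t * c : unitary (Fin n → A)) : Fin n → A) * J t) := by
    have h6 : Continuous (fun p : unitary (Fin n → A) × unitary (Fin n → A) =>
        ((VV w p.2 * p.1 : unitary (Fin n → A)) : Fin n → A)) :=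
      continuous_subtype_val.comp (((cont_VV w).comp continuous_snd).mul continuous_fst)
    exact (hφ'.continuous.comp h6).mul (hJc.comp continuous_snd)
  rw [swap2 (mu (Fin n → A)) (mu (Fin n → A)) hcont] at h4
  have h7 : ∀ t : unitary (Fin n → A), ∫ c : unitary (Fin n → A),
      φ ((VV w t * c : unitary (Fin n → A)) : Fin n → A) * J t ∂(mu (Fin n → A))
        = (∫ c : unitary (Fin n → A), φ (c : Fin n → A) ∂(mu (Fin n → A))) * J t := by
    intro t
    rw [integral_mul_const]
    congr 1
    exact integral_mul_left_eq_self (μ := mu (Fin n → A))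
      (fun c : unitary (Fin n → A) => φ (c : Fin n → A)) (VV w t)
  simp_rw [h7] at h4
  rw [integral_const_mul] at h4
  rw [II_one]
  exact (mul_eq_zero.mp h4).resolve_left hpos.ne'

/-- The word `∏_l x_l^{C l k}`. -/
noncomputable def monoW (A : Type*) [CStarAlgebra A] {n : ℕ} (C : Matrix (Fin n) (Fin n) ℤ)
    (k : Fin n) : WU A n :=
  (List.ofFn fun l => (Coprod.inr (FreeGroup.of l) : WU A n) ^ (C l k)).prod

theorem eta_monoW (C : Matrix (Fin n) (Fin n) ℤ) (i k : Fin n) :
    Multiplicative.toAdd (eta (unitary A) i (monoW A C k)) = C i k := by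
  rw [monoW, map_list_prod, List.map_ofFn, List.prod_ofFn, toAdd_prod, Finset.sum_eq_single i]
  · simp
  · intro b _ hb
    simp [hb]
  · simp

/-- Substitution of the words `monoW`. -/
noncomputable def subst (A : Type*) [CStarAlgebra A] {n : ℕ} (C : Matrix (Fin n) (Fin n) ℤ) :
    WU A n →* WU A n :=
  Coprod.lift Coprod.inl (FreeGroup.lift (monoW A C))

theorem eta_subst (C : Matrix (Fin n) (Fin n) ℤ) (i : Fin n) (c : WU A n) :
    Multiplicative.toAdd (eta (unitary A) i (subst A C c))
      = ∑ k, C i k * Multiplicative.toAdd (eta (unitary A) k c) := by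
  let f : WU A n →* Multiplicative ℤ :=
    { toFun := fun c => Multiplicative.ofAdd
        (∑ k, C i k * Multiplicative.toAdd (eta (unitary A) k c))
      map_one' := by simp
      map_mul' := fun a b => by
        simp only [map_mul, toAdd_mul, mul_add, Finset.sum_add_distrib, ofAdd_add] }
  have h : (eta (unitary A) i).comp (subst A C) = f := by
    refine Coprod.hom_ext (MonoidHom.ext fun c => ?_) (FreeGroup.ext_hom _ _ fun k => ?_)
    · simp [subst, f]
    · apply Multiplicative.toAdd.injective
      simp only [MonoidHom.comp_apply, subst, Coprod.lift_apply_inr, FreeGroup.lift_apply_of,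
        eta_monoW, f, MonoidHom.coe_mk, OneHom.coe_mk, toAdd_ofAdd, eta_var]
      rw [Finset.sum_eq_single k]
      · simp
      · intro b _ hb
        simp [Ne.symm hb]
      · simp
  exact congrArg Multiplicative.toAdd (DFunLike.congr_fun h c)

/-- **Gerstenhaber–Rothaus** for the unitary group of a finite-dimensional C*-algebra with a
faithful trace: every nonsingular system with coefficients in the group has a solution in it. -/
theorem gr_unitary {τ : A →ₗ[ℝ] ℝ} (hτ : IsTr τ) (w : Fin n → WU A n)
    (hdet : (Matrix.of fun i j : Fin n => Multiplicative.toAdd (eta (unitary A) i (w j))).det ≠ 0) :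
    ∃ u : Fin n → unitary A,
      ∀ j, Coprod.lift (MonoidHom.id (unitary A)) (FreeGroup.lift u) (w j) = 1 := by
  set E : Matrix (Fin n) (Fin n) ℤ :=
    Matrix.of fun i j : Fin n => Multiplicative.toAdd (eta (unitary A) i (w j)) with hE
  set C : Matrix (Fin n) (Fin n) ℤ := E.det.sign • E.adjugate with hC
  have hCE : C * E = (E.det.natAbs : ℤ) • (1 : Matrix (Fin n) (Fin n) ℤ) := by
    rw [hC, Matrix.smul_mul, Matrix.adjugate_mul, smul_smul]
    congr 1
    exact Int.sign_mul_self_eq_natAbs _
  have hm : E.det.natAbs ≠ 0 := Int.natAbs_ne_zero.mpr hdet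
  have hI : II (A := A) (fun _ => 1) (fun j => subst A C (w j)) ≠ 0 := by
    rw [II_congr hτ (fun j => subst A C (w j))
      (fun j : Fin n => Coprod.inr (FreeGroup.of j) ^ E.det.natAbs)]
    · exact (II_pow_pos _ hm).ne'
    · intro j k
      apply Multiplicative.toAdd.injective
      rw [eta_subst]
      have h1 := congrFun (congrFun hCE k) j
      rw [Matrix.mul_apply] at h1
      simp only [hE, Matrix.of_apply, Matrix.smul_apply, Matrix.one_apply] at h1 ⊢
      rw [h1]
      by_cases hjk : k = j
      · subst hjk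
        simp
      · simp [hjk, Ne.symm hjk]
  obtain ⟨t, ht⟩ := exists_one_of_II_ne hτ _ hI
  let ev : WU A n →* unitary A :=
    { toFun := fun c => (jet t c).v
      map_one' := by simp
      map_mul' := fun a b => by simp }
  refine ⟨fun k => ev (monoW A C k), fun j => ?_⟩
  have h2 : Coprod.lift (MonoidHom.id (unitary A)) (FreeGroup.lift fun k => ev (monoW A C k))
      = ev.comp (subst A C) := by
    refine Coprod.hom_ext (MonoidHom.ext fun c => ?_) (FreeGroup.ext_hom _ _ fun k => ?_)
    · simp [subst, ev]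
    · simp [subst]
  rw [h2]
  have h3 := congrArg (fun x : unitary (Fin n → A) => (x : Fin n → A) j) ht
  exact Subtype.ext h3

end Pool.Agent.H76.GR
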