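import Mathlib
import Pool.Agent.H76.GR.Main

/-! Extension of finite-dimensional unitary representations to Kervaire extensions. -/

set_option autoImplicit false
set_option linter.unusedSectionVars false

namespace Pool.Agent.H76.GR

open MeasureTheory Module Monoid
open scoped Matrix.Norms.L2Operator

/-- The real part of the matrix trace. -/
noncomputable def reTr (N : Type*) [Fintype N] [DecidableEq N] : Matrix N N ℂ →ₗ[ℝ] ℝ :=
  Complex.reLm.comp ((Matrix.traceLinearMap N ℂ ℂ).restrictScalars ℝ)

theorem reTr_isTr (N : Type*) [Fintype N] [DecidableEq N] : IsTr (reTr N) := by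
  refine ⟨fun x y => ?_, fun x hx => ?_⟩
  · simp [reTr, Matrix.trace_mul_comm x y]
  · have h1 : reTr N (star x * x) = ∑ i, ∑ j, ‖x j i‖ ^ 2 := by
      simp only [reTr, LinearMap.comp_apply, LinearMap.restrictScalars_apply,
        Matrix.traceLinearMap_apply, Matrix.trace, Matrix.diag_apply, Matrix.mul_apply,
        Matrix.star_apply, Complex.reLm_coe, Complex.re_sum]
      refine Finset.sum_congr rfl fun i _ => Finset.sum_congr rfl fun j _ => ?_
      rw [Complex.star_def, ← Complex.normSq_eq_conj_mul_self, Complex.ofReal_re,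
        Complex.normSq_eq_norm_sq]
    rw [h1]
    obtain ⟨a, ha⟩ := Function.ne_iff.mp hx
    obtain ⟨b, hb⟩ := Function.ne_iff.mp ha
    refine Finset.sum_pos' (fun i _ => Finset.sum_nonneg fun j _ => by positivity)
      ⟨b, Finset.mem_univ _, Finset.sum_pos' (fun j _ => by positivity)
        ⟨a, Finset.mem_univ _, ?_⟩⟩
    have : x a b ≠ 0 := hb
    positivity

/-- Every finite-dimensional unitary representation of `G` extends to every Kervaire extension
of `G` (Gerstenhaber–Rothaus). -/
theorem gr_rep {G : Type*} [Group G] {N : Type*} [Fintype N] [DecidableEq N] {n : ℕ}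
    (ρ : G →* unitary (Matrix N N ℂ)) (w : Fin n → Coprod G (FreeGroup (Fin n)))
    (hdet : (Matrix.of fun i j : Fin n => Multiplicative.toAdd (eta G i (w j))).det ≠ 0) :
    ∃ Φ : Coprod G (FreeGroup (Fin n)) →* unitary (Matrix N N ℂ),
      (∀ g, Φ (Coprod.inl g) = ρ g) ∧ ∀ j, Φ (w j) = 1 := by
  let M : Coprod G (FreeGroup (Fin n)) →* WU (Matrix N N ℂ) n := Coprod.map ρ (MonoidHom.id _)
  have he : ∀ i c, eta (unitary (Matrix N N ℂ)) i (M c) = eta G i c := by
    intro i c
    have : (eta (unitary (Matrix N N ℂ)) i).comp M = eta G i := by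
      refine Coprod.hom_ext (MonoidHom.ext fun c => ?_) (FreeGroup.ext_hom _ _ fun k => ?_)
      · simp [M]
      · simp [M]
    exact DFunLike.congr_fun this c
  obtain ⟨u, hu⟩ := gr_unitary (reTr_isTr N) (fun j => M (w j)) (by simpa only [he] using hdet)
  refine ⟨(Coprod.lift (MonoidHom.id _) (FreeGroup.lift u)).comp M, fun g => ?_, fun j => hu j⟩
  simp [M]

end Pool.Agent.H76.GR
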